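import Pool.Agent.Lib.MP_dbccd7_gt.SpecD
import Pool.Agent.Lib.MP_dbccd7_gt.HypFin

section
/-!
# FAR: comparison of the harmonic map with `v = α y` far out
-/
open scoped Manifold ContDiff Matrix Topology

namespace Pool.Agent.Lib.MPdbccd7

namespace FarM

theorem contDiff_q_comp {n : ℕ} {u v : E n → E n} (hu : ContDiff ℝ ∞ u) (hv : ContDiff ℝ ∞ v) :
    ContDiff ℝ ∞ fun z => q (u z) (v z) := by
  unfold q
  apply ContDiff.sub
  · exact (contDiff_y0.comp hu).mul (contDiff_y0.comp hv)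
  · apply ContDiff.sum
    intro i _
    exact ((contDiff_coord i).comp hu).mul ((contDiff_coord i).comp hv)

theorem contDiff_logq {n : ℕ} {u v : E n → E n} (hu : ContDiff ℝ ∞ u) (hv : ContDiff ℝ ∞ v) :
    ContDiff ℝ ∞ fun z => Real.log (q (u z) (v z)) :=
  (contDiff_q_comp hu hv).log fun _ => (q_pos _ _).ne'

/-- The profile of the barrier. -/
noncomputable def sv (m : ℕ) (Ya R x : ℝ) : ℝ :=
  1 / 400 + Bc m Ya * (x⁻¹ - 1 / R) ^ 2 * x⁻¹ ^ m

theorem Sb_eq (m : ℕ) (Ya R : ℝ) (y : E (m + 3)) :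
    Sb (1 / 400) (Bc m Ya) (1 / R) y = sv m Ya R (y0 y) := rfl

theorem Bc_nonneg (m : ℕ) {Ya : ℝ} (h : 1 ≤ Ya) : 0 ≤ Bc m Ya := by
  unfold Bc
  have := Real.log_nonneg h
  positivity

theorem sv_ge (m : ℕ) {Ya R x : ℝ} (h : 1 ≤ Ya) (hx : 0 < x) : 1 / 400 ≤ sv m Ya R x := by
  unfold sv
  have := Bc_nonneg m h
  have h2 : 0 ≤ Bc m Ya * (x⁻¹ - 1 / R) ^ 2 * x⁻¹ ^ m := by positivity
  linarith

theorem sv_R (m : ℕ) {Ya R : ℝ} : sv m Ya R R = 1 / 400 := by
  unfold sv
  have : R⁻¹ - 1 / R = 0 := by rw [one_div, sub_self]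
  rw [this]
  ring

theorem sv_Ya (m : ℕ) {Ya R : ℝ} (h : 1 ≤ Ya) (h20 : 20 * Ya ≤ R) :
    (361 / 400) * (3 * Real.log Ya + 4) ≤ sv m Ya R Ya - 1 / 400 := by
  have hY : 0 < Ya := by linarith
  have hR : 0 < R := by linarith
  have hL := Real.log_nonneg h
  have e : sv m Ya R Ya - 1 / 400 = (3 * Real.log Ya + 4) * (1 - Ya / R) ^ 2 := by
    unfold sv Bc
    have h1 : Ya ^ (m + 2) * (Ya⁻¹ - 1 / R) ^ 2 * Ya⁻¹ ^ m = (1 - Ya / R) ^ 2 := by
      have : Ya⁻¹ - 1 / R = Ya⁻¹ * (1 - Ya / R) := by field_simp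
      rw [this, mul_pow, inv_pow, inv_pow, pow_add]
      field_simp
    calc _ = (3 * Real.log Ya + 4) * (Ya ^ (m + 2) * (Ya⁻¹ - 1 / R) ^ 2 * Ya⁻¹ ^ m) := by ring
      _ = _ := by rw [h1]
  rw [e]
  have h2 : Ya / R ≤ 1 / 20 := by
    rw [div_le_div_iff₀ hR (by norm_num)]
    linarith
  have h3 : (361 : ℝ) / 400 ≤ (1 - Ya / R) ^ 2 := by nlinarith [div_nonneg hY.le hR.le]
  nlinarith

theorem sv_4Ya (m : ℕ) {Ya R : ℝ} (h : 1 ≤ Ya) (h20 : 20 * Ya ≤ R) :
    sv m Ya R (4 * Ya) - 1 / 400 ≤ (1 / 16) * (3 * Real.log Ya + 4) := by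
  have hY : 0 < Ya := by linarith
  have hR : 0 < R := by linarith
  have hL := Real.log_nonneg h
  have e : sv m Ya R (4 * Ya) - 1 / 400
      = (3 * Real.log Ya + 4) * ((1 - 4 * Ya / R) ^ 2 / 16 * (1 / 4) ^ m) := by
    unfold sv Bc
    have h1 : Ya ^ (m + 2) * ((4 * Ya)⁻¹ - 1 / R) ^ 2 * (4 * Ya)⁻¹ ^ m
        = (1 - 4 * Ya / R) ^ 2 / 16 * (1 / 4) ^ m := by
      have : (4 * Ya)⁻¹ - 1 / R = (4 * Ya)⁻¹ * (1 - 4 * Ya / R) := by field_simp
      rw [this, mul_pow, inv_pow, inv_pow, mul_pow, mul_pow, pow_add, one_div, inv_pow]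
      field_simp
      norm_num
      ring
    calc _ = (3 * Real.log Ya + 4) * (Ya ^ (m + 2) * ((4 * Ya)⁻¹ - 1 / R) ^ 2
          * (4 * Ya)⁻¹ ^ m) := by ring
      _ = _ := by rw [h1]
  rw [e]
  have h2 : 4 * Ya / R ≤ 1 / 5 := by
    rw [div_le_div_iff₀ hR (by norm_num)]
    linarith
  have h2' : 0 ≤ 4 * Ya / R := by positivity
  have h3 : (1 - 4 * Ya / R) ^ 2 ≤ 1 := by nlinarith
  have h4 : (1 / 4 : ℝ) ^ m ≤ 1 := pow_le_one₀ (by norm_num) (by norm_num)
  have h5 : 0 ≤ (1 / 4 : ℝ) ^ m := by positivity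
  have h6 : (1 - 4 * Ya / R) ^ 2 / 16 * (1 / 4 : ℝ) ^ m ≤ 1 / 16 := by
    calc (1 - 4 * Ya / R) ^ 2 / 16 * (1 / 4 : ℝ) ^ m ≤ 1 / 16 * 1 := by
          apply mul_le_mul _ h4 h5 (by norm_num)
          linarith
      _ = 1 / 16 := by norm_num
  calc _ ≤ (3 * Real.log Ya + 4) * (1 / 16) := by
        apply mul_le_mul_of_nonneg_left h6
        linarith
    _ = _ := by ring

theorem junction (m : ℕ) {Ya R : ℝ} (h : 1 ≤ Ya) (h20 : 20 * Ya ≤ R) :
    sv m Ya R (4 * Ya) + Real.log (8 * Ya) ≤ sv m Ya R Ya - Real.log (2 * Ya) ∧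
    0 ≤ sv m Ya R Ya - Real.log (2 * Ya) := by
  have hY : 0 < Ya := by linarith
  have hL := Real.log_nonneg h
  have h1 := sv_Ya m h h20
  have h2 := sv_4Ya m h h20
  have h8 : Real.log (8 * Ya) = 3 * Real.log 2 + Real.log Ya := by
    rw [Real.log_mul (by norm_num) hY.ne']
    have : (8 : ℝ) = 2 ^ 3 := by norm_num
    rw [this, Real.log_pow]
    norm_num
  have h2' : Real.log (2 * Ya) = Real.log 2 + Real.log Ya := by
    rw [Real.log_mul (by norm_num) hY.ne']
  have hl := Real.log_two_lt_d9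
  rw [h8, h2']
  constructor <;> nlinarith

section ctx

variable {m : ℕ} {C C1 C2 δ ε κ Ya Yb r1 r2 R D : ℝ} {T : Tw}
  {Γ : Subgroup (GLn (m + 3))} {g : MF (m + 3)} {u : E (m + 3) → E (m + 3)}

theorem metAt {n : ℕ} {Γ : Subgroup (GLn n)} {g : MF n} (h : InvMetric n Γ g) (p : E n) :
    MetAt g p :=
  ⟨fun i j => (h.smooth i j).contDiffAt, Filter.Eventually.of_forall h.posDef⟩

/-- If `g = gA` near `p`, the tension vector etc. agree. -/
theorem tv_congr (hCal : SpecCal) {g g' : MF (m + 3)} {p : E (m + 3)} (hg : MetAt g p)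
    (h : g =ᶠ[𝓝 p] g') (v : E (m + 3) → E (m + 3)) (k : Fin (m + 3)) :
    tv g v k p = tv g' v k p := by
  unfold tv en
  rw [(hCal _ g p hg).1 _ g' h, h.eq_of_nhds]

/-- The key estimate. -/
theorem key (hCal : SpecCal) (hHeq : SpecHeq) (hBoc : SpecBoc) (hPerp : SpecPerp)
    (hTriv : SpecTriv)
    (hc : Ctx m C C1 C2 δ ε κ Ya Yb r1 r2 R D T Γ g u) {p : E (m + 3)} (hp : Ya ≤ y0 p)
    (hg : g =ᶠ[𝓝 p] gA T) (hL : 1 / 400 < Real.log (q (u p) (vA T p))) :
    1 / 6400 < lap g (fun z => Real.log (q (u z) (vA T z))) p := by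
  have hmet := metAt hc.per.inv p
  have hv : ContDiff ℝ ∞ (vA T (m := m)) := (hTriv m C T ε κ r1 r2 hc.tw).1
  have hq : 1 + 1 / 400 < q (u p) (vA T p) := by
    have h1 := Real.add_one_le_exp (1 / 400 : ℝ)
    have h2 : Real.exp (1 / 400) < q (u p) (vA T p) := by
      rw [← Real.lt_log_iff_exp_lt (q_pos _ _)]
      exact hL
    linarith
  have hq1 : 1 < q (u p) (vA T p) := by linarith
  have htu : ∀ k, tv g u k p = 0 := by
    intro k
    rw [← hHeq]
    exact hc.harm.harm k p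
  have hboc := hBoc _ g u (vA T) p hmet hc.harm.smooth.contDiffAt hv.contDiffAt htu hq1
  have hsm : C1 / ε ^ 10 * (κ + 1 / y0 p) ≤ 1 / 6400 := by
    refine le_trans ?_ hc.par.hten
    apply mul_le_mul_of_nonneg_left
    · have : 1 / y0 p ≤ 1 / Ya :=
        one_div_le_one_div_of_le (by linarith [hc.par.hYa]) hp
      linarith
    · have := hc.hC1
      have h10 : 0 < ε ^ 10 := pow_pos hc.tw.hε.1 _
      positivity
  have htn : tn g (vA T) p = tn (gA T) (vA T) p := by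
    unfold tn
    congr 1
    funext k
    exact tv_congr hCal hmet hg _ k
  have hpv : perp g (vA T) (u p) p = perp (gA T) (vA T) (u p) p := by
    unfold perp en
    rw [hg.eq_of_nhds]
  obtain ⟨ht1, ht2⟩ := hc.tens T ε κ r1 r2 hc.tw p
  have hq1' : 1 < q (vA T p) (u p) := by rwa [q_comm]
  have hp2 := ht2 (by linarith) (u p) hq1'
  have hp1 := (hPerp _ g u (vA T p) p hmet hc.harm.smooth.contDiffAt hq1).1
  have h3 : 1 / 401 < 1 - 1 / q (u p) (vA T p) := by
    have : 1 / q (u p) (vA T p) < 1 / (1 + 1 / 400) :=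
      one_div_lt_one_div_of_lt (by norm_num) hq
    have h4 : (1 : ℝ) / (1 + 1 / 400) = 400 / 401 := by norm_num
    linarith
  rw [htn, hpv] at hboc
  have h5 : (1 / 401 : ℝ) * (1 / 2) ≤ (1 - 1 / q (u p) (vA T p))
      * (perp g u (vA T p) p + perp (gA T) (vA T) (u p) p) := by
    apply mul_le_mul h3.le (by linarith) (by norm_num) (by linarith)
  linarith

/-- `log y₀(u)` has no interior maximum with positive value. -/
theorem no_max (hCal : SpecCal) (hHeq : SpecHeq) (hBoc : SpecBoc) (hPerp : SpecPerp)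
    (hc : Ctx m C C1 C2 δ ε κ Ya Yb r1 r2 R D T Γ g u) {p : E (m + 3)}
    (hL : 0 < Real.log (y0 (u p))) (hmax : IsLocalMax (fun z => Real.log (y0 (u z))) p) :
    False := by
  have hmet := metAt hc.per.inv p
  have hq1 : 1 < q (u p) ((fun _ : E (m + 3) => (0 : E (m + 3))) p) := by
    simp only
    rw [q_zero_right]
    by_contra h
    push Not at h
    have := Real.log_nonpos (y0_pos _).le h
    linarith
  have htu : ∀ k, tv g u k p = 0 := by
    intro k
    rw [← hHeq]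
    exact hc.harm.harm k p
  have hen : en g (fun _ => (0 : E (m + 3))) p = 0 := by
    unfold en fI
    simp [pd_const]
  have htv : ∀ k, tv g (fun _ => (0 : E (m + 3))) k p = 0 := by
    intro k
    unfold tv
    rw [hen, (hCal _ g p hmet).2.2.1]
    simp
  have htn : tn g (fun _ => (0 : E (m + 3))) p = 0 := by
    unfold tn hn
    simp [htv]
  have hboc := hBoc _ g u (fun _ => 0) p hmet hc.harm.smooth.contDiffAt contDiffAt_const htu hq1
  have hp1 := (hPerp _ g u 0 p hmet hc.harm.smooth.contDiffAt hq1).2 (by omega)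
    (hc.harm.imm p)
  have hp2 := (hPerp _ g (fun _ => (0 : E (m + 3))) (u p) p hmet contDiffAt_const
    (by rw [q_comm]; exact hq1)).1
  rw [htn] at hboc
  have h3 : 0 < 1 - 1 / q (u p) ((fun _ : E (m + 3) => (0 : E (m + 3))) p) := by
    rw [sub_pos, div_lt_one (by linarith)]
    exact hq1
  have hlap : lap g (fun z => Real.log (q (u z) 0)) p ≤ 0 := by
    apply (hCal _ g p hmet).2.2.2.2.2.2
    · exact (contDiff_logq hc.harm.smooth contDiff_const).contDiffAt
    · have : (fun z => Real.log (q (u z) 0)) = fun z => Real.log (y0 (u z)) := by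
        funext z
        rw [q_zero_right]
      rw [this]
      exact hmax
  have h4 : 0 < (1 - 1 / q (u p) ((fun _ : E (m + 3) => (0 : E (m + 3))) p))
      * (perp g u ((fun _ : E (m + 3) => (0 : E (m + 3))) p) p
        + perp g (fun _ => (0 : E (m + 3))) (u p) p) := by
    apply mul_pos h3
    have : perp g u ((fun _ : E (m + 3) => (0 : E (m + 3))) p) p = perp g u 0 p := rfl
    rw [this]
    linarith
  linarith

/-- The function to which the maximum principle is applied. -/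
noncomputable def Ff (m : ℕ) (Ya R : ℝ) (T : Tw) (u : E (m + 3) → E (m + 3)) (y : E (m + 3)) : ℝ :=
  if y0 y ≤ Ya then Real.log (y0 (u y)) - (sv m Ya R Ya - Real.log (2 * Ya))
  else if y0 y ≤ 4 * Ya then
    max (Real.log (y0 (u y)) - (sv m Ya R Ya - Real.log (2 * Ya)))
      (Real.log (q (u y) (vA T y)) - sv m Ya R (y0 y))
  else if y0 y ≤ R then Real.log (q (u y) (vA T y)) - sv m Ya R (y0 y)
  else Real.log (q (u y) y) - 1 / 400

theorem lv_le (hTriv : SpecTriv) (hT : TwOK T C ε κ r1 r2) (y : E (m + 3)) :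
    Real.log (q (u y) (vA T y)) ≤ Real.log (y0 (u y)) + Real.log (2 * y0 y) ∧
    Real.log (y0 (u y)) ≤ Real.log (q (u y) (vA T y)) + Real.log (2 * y0 y) := by
  have hv := ((hTriv m C T ε κ r1 r2 hT).2 y).2.2.1
  have h1 := q_le (u y) 0 (vA T y)
  have h2 := q_le (u y) (vA T y) 0
  rw [q_zero_right, q_zero] at h1
  rw [q_zero_right, q_zero_right] at h2
  have a := y0_pos (u y)
  have b := y0_pos y
  have c := q_pos (u y) (vA T y)
  constructor
  · rw [← Real.log_mul a.ne' (by positivity)]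
    apply Real.log_le_log c
    calc _ ≤ 2 * y0 (u y) * y0 (vA T y) := h1
      _ ≤ 2 * y0 (u y) * y0 y := by gcongr
      _ = _ := by ring
  · rw [← Real.log_mul c.ne' (by positivity)]
    apply Real.log_le_log a
    calc _ ≤ 2 * q (u y) (vA T y) * y0 (vA T y) := h2
      _ ≤ 2 * q (u y) (vA T y) * y0 y := by gcongr
      _ = _ := by ring

theorem lv_out (hTriv : SpecTriv) (hT : TwOK T C ε κ r1 r2) {y : E (m + 3)}
    (hy : Real.exp r2 ≤ y0 y) : vA T y = y ∧ gA T y = gH y := by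
  apply ((hTriv m C T ε κ r1 r2 hT).2 y).2.1
  unfold rk
  rwa [Real.le_log_iff_exp_le (y0_pos y)]

theorem Ff_out (hTriv : SpecTriv) (hc : Ctx m C C1 C2 δ ε κ Ya Yb r1 r2 R D T Γ g u)
    {y : E (m + 3)} (hy : R ≤ y0 y) :
    Ff m Ya R T u y = Real.log (q (u y) y) - 1 / 400 := by
  have h20 := hc.par.h20
  have hYa := hc.par.hYa
  unfold Ff
  rw [if_neg (by linarith), if_neg (by linarith)]
  by_cases h : y0 y ≤ R
  · rw [if_pos h]
    have e : y0 y = R := le_antisymm h hy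
    rw [e, sv_R, (lv_out hTriv hc.tw (by linarith [hc.par.hr2, Real.exp_pos r2])).1]
  · rw [if_neg h]

theorem Ff_cont (hTriv : SpecTriv) (hc : Ctx m C C1 C2 δ ε κ Ya Yb r1 r2 R D T Γ g u) :
    Continuous (Ff m Ya R T u) := by
  have h20 := hc.par.h20
  have hYa := hc.par.hYa
  have hu := hc.harm.smooth
  have hv : ContDiff ℝ ∞ (vA T (m := m)) := (hTriv m C T ε κ r1 r2 hc.tw).1
  have c1 : Continuous fun y => Real.log (y0 (u y)) := by
    have := (contDiff_logq hu (contDiff_const (c := (0 : E (m + 3))))).continuous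
    simpa only [q_zero_right] using this
  have c2 : Continuous fun y => Real.log (q (u y) (vA T y)) := (contDiff_logq hu hv).continuous
  have c3 : Continuous fun y => Real.log (q (u y) y) := (contDiff_logq hu contDiff_id).continuous
  have c4 : Continuous fun y : E (m + 3) => sv m Ya R (y0 y) := by
    unfold sv
    have : Continuous fun y : E (m + 3) => (y0 y)⁻¹ :=
      continuous_y0.inv₀ fun y => (y0_pos y).ne'
    fun_prop
  unfold Ff
  obtain ⟨hj, -⟩ := junction m hYa h20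
  refine Continuous.if_le (by fun_prop) ?_ continuous_y0 continuous_const ?_
  · refine Continuous.if_le (by fun_prop) ?_ continuous_y0 continuous_const ?_
    · refine Continuous.if_le (by fun_prop) (by fun_prop) continuous_y0 continuous_const ?_
      intro y hy
      rw [hy, sv_R, (lv_out hTriv hc.tw (by linarith [hc.par.hr2, Real.exp_pos r2])).1]
    · intro y hy
      rw [if_pos (by linarith), max_eq_right]
      have h2 := (lv_le (u := u) hTriv hc.tw y).2
      rw [hy] at h2 ⊢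
      have e : (2 : ℝ) * (4 * Ya) = 8 * Ya := by ring
      rw [e] at h2
      linarith
  · intro y hy
    rw [if_pos (by linarith), max_eq_left]
    have h2 := (lv_le (u := u) hTriv hc.tw y).1
    rw [hy] at h2 ⊢
    linarith

/-- Values below the function `Ff`. -/
theorem Ff_ge1 {y : E (m + 3)} (hy : y0 y ≤ 4 * Ya) :
    Real.log (y0 (u y)) - (sv m Ya R Ya - Real.log (2 * Ya)) ≤ Ff m Ya R T u y := by
  unfold Ff
  split_ifs with h
  · exact le_rfl
  · exact le_max_left _ _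

theorem Ff_ge2 (hTriv : SpecTriv) (hc : Ctx m C C1 C2 δ ε κ Ya Yb r1 r2 R D T Γ g u)
    {y : E (m + 3)} (hy : Ya < y0 y) :
    Real.log (q (u y) (vA T y)) - sv m Ya R (y0 y) ≤ Ff m Ya R T u y := by
  have hYa := hc.par.hYa
  by_cases h : R ≤ y0 y
  · rw [Ff_out hTriv hc h, (lv_out hTriv hc.tw (by linarith [hc.par.hr2, Real.exp_pos r2])).1]
    have := sv_ge m (R := R) hYa (y0_pos y)
    linarith
  · push Not at h
    unfold Ff
    rw [if_neg (by linarith)]
    split_ifs with h1 h2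
    · exact le_max_right _ _
    · exact le_rfl
    · linarith

end ctx

end FarM

open FarM in
theorem specFar (hCal : SpecCal) (hHeq : SpecHeq) (hBoc : SpecBoc) (hPerp : SpecPerp)
    (hTriv : SpecTriv) (hBars : SpecBars) (hMaxp : SpecMaxp) : SpecFar := by
  intro m C C1 C2 δ ε κ Ya Yb r1 r2 R D T Γ g u hc
  have h20 := hc.par.h20
  have hYa := hc.par.hYa
  have hR1 : 1 ≤ R := by linarith
  have hv : ContDiff ℝ ∞ (vA T (m := m)) := (hTriv m C T ε κ r1 r2 hc.tw).1
  have her : Real.exp r2 < R := by linarith [hc.par.hr2, Real.exp_pos r2]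
  obtain ⟨hj, hj0⟩ := junction m hYa h20
  obtain ⟨p, hmax, hle, hpos⟩ := hMaxp _ D Γ hc.lat R hR1 (by nlinarith [hc.hD])
    (Ff m Ya R T u) (Ff_cont hTriv hc) (by
      intro γ hγ y hy hy'
      rw [Ff_out hTriv hc hy, Ff_out hTriv hc hy', hc.harm.equiv γ hγ y,
        q_act (hc.lat.lor γ hγ)])
  suffices hF : Ff m Ya R T u p ≤ 0 by
    intro y hy1 hy2
    have h1 := hle y hy2
    have h2 := Ff_ge2 (u := u) hTriv hc (y := y) (by linarith)
    rw [Sb_eq]
    linarith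
  by_contra hF
  push Not at hF
  have hmet := metAt hc.per.inv p
  -- case of `log y₀(u)`
  have caseI : y0 p < 4 * Ya →
      Ff m Ya R T u p = Real.log (y0 (u p)) - (sv m Ya R Ya - Real.log (2 * Ya)) → False := by
    intro hp hFp
    refine no_max hCal hHeq hBoc hPerp hc (p := p) (by linarith) ?_
    have h1 : ∀ᶠ y in 𝓝 p, y0 y < 4 * Ya :=
      (continuous_y0.tendsto p).eventually (gt_mem_nhds hp)
    filter_upwards [h1, hmax] with y hy hy'
    have := Ff_ge1 (u := u) (T := T) (R := R) (y := y) hy.le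
    linarith
  -- case of `v`
  have hgp : Ya < y0 p → g =ᶠ[𝓝 p] gA T := by
    intro hp
    rcases hpos with hp1 | hp1
    · have h1 : ∀ᶠ y in 𝓝 p, y0 y < 2 * R :=
        (continuous_y0.tendsto p).eventually (gt_mem_nhds (by linarith))
      filter_upwards [h1] with y hy
      exact hc.per.ball y hy
    · have h0 : R < y0 p := by
        have := hp1 1 Γ.one_mem
        simpa [act_one] using this
      have h1 : ∀ᶠ y in 𝓝 p, Real.exp r2 < y0 y :=
        (continuous_y0.tendsto p).eventually (lt_mem_nhds (by linarith))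
      filter_upwards [h1, hc.per.out p hp1] with y hy hy'
      rw [hy', (lv_out hTriv hc.tw hy.le).2]
  have hbars := (hBars m T hc.tw.tsm hc.tw.lsm (1 / 400) (Bc m Ya) (1 / R)
    (Bc_nonneg m hYa) (by positivity))
  have caseII : Ya < y0 p → y0 p ≤ R →
      Ff m Ya R T u p = Real.log (q (u p) (vA T p)) - sv m Ya R (y0 p) → False := by
    intro hp hp2 hFp
    have hg := hgp hp
    have hs := sv_ge m (R := R) hYa (y0_pos p)
    have hk := key hCal hHeq hBoc hPerp hTriv hc hp.le hg (by linarith)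
    have hS : lap g (Sb (1 / 400) (Bc m Ya) (1 / R)) p ≤ 1 / 6400 := by
      rw [(hCal _ g p hmet).1 _ _ hg]
      refine (hbars.2 p).trans ?_
      have := hc.par.hbar
      unfold Bc
      exact this
    have hloc : IsLocalMax (fun z => Real.log (q (u z) (vA T z))
        - Sb (1 / 400) (Bc m Ya) (1 / R) z) p := by
      have h1 : ∀ᶠ y in 𝓝 p, Ya < y0 y :=
        (continuous_y0.tendsto p).eventually (lt_mem_nhds hp)
      filter_upwards [h1, hmax] with y hy hy'
      have := Ff_ge2 (u := u) hTriv hc hy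
      simp only [Sb_eq] at hy' ⊢
      linarith
    have hc1 : ContDiffAt ℝ ∞ (fun z => Real.log (q (u z) (vA T z))) p :=
      (contDiff_logq hc.harm.smooth hv).contDiffAt
    have hc2 : ContDiffAt ℝ ∞ (Sb (1 / 400) (Bc m Ya) (1 / R) (m := m)) p := hbars.1.contDiffAt
    have hl := (hCal _ g p hmet).2.2.2.2.2.2 _ (hc1.sub hc2) hloc
    have he := ((hCal _ g p hmet).2.2.2.1 _ _ hc1 hc2).2.1
    rw [he] at hl
    linarith
  have caseIII : R < y0 p → False := by
    intro hp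
    have hg := hgp (by linarith)
    have hFp : Ff m Ya R T u p = Real.log (q (u p) p) - 1 / 400 := Ff_out hTriv hc hp.le
    have hvp : vA T p = p := (lv_out hTriv hc.tw (by linarith)).1
    have hk := key hCal hHeq hBoc hPerp hTriv hc (by linarith) hg (by rw [hvp]; linarith)
    have hloc : IsLocalMax (fun z => Real.log (q (u z) (vA T z))) p := by
      have h1 : ∀ᶠ y in 𝓝 p, R < y0 y :=
        (continuous_y0.tendsto p).eventually (lt_mem_nhds hp)
      filter_upwards [h1, hmax] with y hy hy'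
      rw [Ff_out hTriv hc hy.le, hFp] at hy'
      rw [(lv_out hTriv hc.tw (by linarith)).1, hvp]
      linarith
    have hc1 : ContDiffAt ℝ ∞ (fun z => Real.log (q (u z) (vA T z))) p :=
      (contDiff_logq hc.harm.smooth hv).contDiffAt
    have hl := (hCal _ g p hmet).2.2.2.2.2.2 _ hc1 hloc
    linarith
  by_cases h1 : y0 p ≤ Ya
  · refine caseI (by linarith) ?_
    unfold Ff
    rw [if_pos h1]
  · push Not at h1
    by_cases h2 : y0 p < 4 * Ya
    · by_cases h3 : Real.log (q (u p) (vA T p)) - sv m Ya R (y0 p)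
          ≤ Real.log (y0 (u p)) - (sv m Ya R Ya - Real.log (2 * Ya))
      · refine caseI h2 ?_
        unfold Ff
        rw [if_neg (by linarith), if_pos h2.le, max_eq_left h3]
      · push Not at h3
        refine caseII h1 (by linarith) ?_
        unfold Ff
        rw [if_neg (by linarith), if_pos h2.le, max_eq_right h3.le]
    · push Not at h2
      by_cases h4 : y0 p ≤ R
      · refine caseII h1 h4 ?_
        rcases h2.eq_or_lt with h5 | h5
        · unfold Ff
          rw [if_neg (by linarith), if_pos (by linarith), max_eq_right]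
          have h6 := (lv_le (u := u) hTriv hc.tw p).2
          rw [← h5] at h6 ⊢
          have e : (2 : ℝ) * (4 * Ya) = 8 * Ya := by ring
          rw [e] at h6
          linarith
        · unfold Ff
          rw [if_neg (by linarith), if_neg (by linarith), if_pos h4]
      · exact caseIII (by linarith)

end Pool.Agent.Lib.MPdbccd7
end

section
/-!
# GT: existence of the periodic metric
-/
set_option autoImplicit false

open Filter Topology

open scoped Manifold ContDiff Matrix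

namespace Pool.Agent.Lib.MPdbccd7

namespace GtM

variable {n : ℕ}

/-! ## Triangle inequality -/

theorem q_le_sharp (x y z : E n) : q x z ≤ q x y * (q y z + Real.sqrt (q y z ^ 2 - 1)) := by
  have hL := isLor_boost y
  have h1 : ∀ w : E n, q w y = y0 (act (boost y)⁻¹ w) := by
    intro w
    have h := q_act hL.inv w y
    have h2 : act (boost y)⁻¹ y = 0 := by
      have := act_inv_act hL 0
      rwa [act_boost_zero] at this
    rw [h2, q_zero_right] at h
    exact h.symm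
  rw [h1 x, q_comm y z, h1 z, ← q_act hL.inv x z, q_eq_inner]
  set a := act (boost y)⁻¹ x
  set b := act (boost y)⁻¹ z
  have h2 := abs_real_inner_le_norm a b
  have h4 := (abs_le.1 h2).1
  have h5 : Real.sqrt (y0 b ^ 2 - 1) = ‖b‖ := by
    rw [y0_sq', add_sub_cancel_left, Real.sqrt_sq (norm_nonneg _)]
  rw [h5]
  have h3 : ‖a‖ * ‖b‖ ≤ y0 a * ‖b‖ :=
    mul_le_mul_of_nonneg_right (norm_lt_y0 a).le (norm_nonneg _)
  linarith

theorem y0_act_le {A : Mx n} (hA : IsLor A) (x y : E n) :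
    y0 (act A x) ≤ y0 (act A y) * (q y x + Real.sqrt (q y x ^ 2 - 1)) := by
  have h := q_le_sharp 0 (act A y) (act A x)
  rwa [q_zero, q_zero, q_act hA] at h

/-- If all the images of `p` are far out, so are those of the points near `p`. -/
theorem near_far {D : ℝ} {Γ : Subgroup (GLn n)} (hΓ : GoodLattice n D Γ) {a b : ℝ} (ha : 0 < a)
    (hab : a < b) (p : E n) (h : ∀ γ ∈ Γ, b ≤ y0 (act (γ : Mx n) p)) :
    ∀ᶠ y in 𝓝 p, ∀ γ ∈ Γ, a < y0 (act (γ : Mx n) y) := by
  have hc : Continuous fun y : E n => q y p + Real.sqrt (q y p ^ 2 - 1) := by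
    have h1 : Continuous fun y : E n => q y p :=
      continuous_q.comp (continuous_id.prodMk continuous_const)
    exact h1.add ((h1.pow 2).sub continuous_const).sqrt
  have h1 : q p p + Real.sqrt (q p p ^ 2 - 1) < b / a := by
    rw [q_self, one_pow, sub_self, Real.sqrt_zero, add_zero, one_lt_div ha]
    exact hab
  have h2 := hc.continuousAt.eventually_lt (continuousAt_const (x := p)) h1
  filter_upwards [h2] with y hy γ hγ
  have h3 := (h γ hγ).trans (y0_act_le (hΓ.lor γ hγ) p y)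
  have h4 := y0_pos (act (γ : Mx n) y)
  have h5 := h3.trans_lt (mul_lt_mul_of_pos_left hy h4)
  rw [mul_div_assoc', lt_div_iff₀ ha, mul_comm b a] at h5
  exact lt_of_mul_lt_mul_right h5 (by linarith)

/-! ## Pull-back -/

/-- The pull-back of a matrix field by a Lorentz matrix. -/
noncomputable def pull (A : Mx n) (g : MF n) : MF n :=
  fun y => (jac (act A) y)ᵀ * g (act A y) * jac (act A) y

theorem pull_mul {A B : Mx n} (hB : IsLor B) (g : MF n) (y : E n) :
    (jac (act B) y)ᵀ * pull A g (act B y) * jac (act B) y = pull (A * B) g y := by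
  have h1 : jac (act (A * B)) y = jac (act A) (act B y) * jac (act B) y := by
    rw [← jac_comp (differentiable_act A _) (differentiable_act B y)]
    congr 1
    funext z
    exact act_mul hB z
  unfold pull
  rw [act_mul hB, h1, Matrix.transpose_mul]
  simp only [Matrix.mul_assoc]

theorem jac_one (y : E n) : jac (act (1 : Mx n)) y = 1 := by
  rw [← jac_id y]
  congr 1
  funext z
  exact act_one z

theorem pull_one (g : MF n) (y : E n) : pull 1 g y = g y := by
  unfold pull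
  rw [jac_one, act_one, Matrix.transpose_one, Matrix.one_mul, Matrix.mul_one]

theorem contDiffAt_pull {A : Mx n} {g : MF n} {y : E n}
    (h : ∀ i j, ContDiffAt ℝ ∞ (fun z => g z i j) (act A y)) (i j : Fin n) :
    ContDiffAt ℝ ∞ (fun z => pull A g z i j) y := by
  have hj : ∀ a b, ContDiffAt ℝ ∞ (fun z => jac (act A) z a b) y := by
    intro a b
    have : ContDiff ℝ ∞ fun z : E n => act A z a := by
      have := contDiff_euclidean.1 (contDiff_act A (m := ∞)) a
      exact this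
    exact contDiffAt_pd this.contDiffAt b
  have h2 : ∀ a b, ContDiffAt ℝ ∞ (fun z => g (act A z) a b) y := fun a b =>
    (h a b).comp y (contDiff_act A).contDiffAt
  have h3 : (fun z => pull A g z i j) = fun z => ∑ b, (∑ a, jac (act A) z a i * g (act A z) a b) *
      jac (act A) z b j := by
    funext z
    unfold pull
    rw [Matrix.mul_apply]
    refine Finset.sum_congr rfl fun b _ => ?_
    rw [Matrix.mul_apply]
    rfl
  rw [h3]
  exact ContDiffAt.sum fun b _ => (ContDiffAt.sum fun a _ => (hj a i).mul (h2 a b)).mul (hj b j)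

theorem posDef_pull {A : Mx n} (hA : IsLor A) {g : MF n} {y : E n} (h : (g (act A y)).PosDef) :
    (pull A g y).PosDef := by
  have h1 : Function.Injective (jac (act A) y).mulVec := by
    rw [Matrix.mulVec_injective_iff_isUnit, Matrix.isUnit_iff_isUnit_det]
    exact (jac_act_det_ne hA y).isUnit
  have := h.conjTranspose_mul_mul_same h1
  rwa [Matrix.conjTranspose_eq_transpose_of_trivial] at this

/-! ## The periodic metric -/

theorem entry_le {A : Mx n} (hA : IsLor A) (y : E n) : A 0 0 ≤ 2 * y0 y * y0 (act A y) := by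
  have h := q_le (act A 0) (act A y) 0
  rw [q_zero_right, act_zero_zero hA, q_act hA, q_zero_right, q_zero] at h
  exact h

section

variable {R D : ℝ} {Γ : Subgroup (GLn n)}

theorem uniq (hΓ : GoodLattice n D Γ) (hD : 16 * R ^ 2 ≤ D) {γ δ : GLn n} (hγ : γ ∈ Γ)
    (hδ : δ ∈ Γ) {y : E n} (h1 : y0 (act (γ : Mx n) y) < 2 * R)
    (h2 : y0 (act (δ : Mx n) y) < 2 * R) : γ = δ := by
  by_contra hne
  have h3 : δ * γ⁻¹ ≠ 1 := by
    intro h
    exact hne (mul_inv_eq_one.1 h).symm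
  have hm : δ * γ⁻¹ ∈ Γ := Γ.mul_mem hδ (Γ.inv_mem hγ)
  have h4 := hΓ.disp _ hm h3
  have h5 := entry_le (hΓ.lor _ hm) (act (γ : Mx n) y)
  have h6 : act ((δ * γ⁻¹ : GLn n) : Mx n) (act (γ : Mx n) y) = act (δ : Mx n) y := by
    rw [← act_mul (hΓ.lor _ hγ), ← Units.val_mul, inv_mul_cancel_right]
  rw [h6] at h5
  have h7 := y0_pos (act (γ : Mx n) y)
  have h8 := y0_pos (act (δ : Mx n) y)
  nlinarith

open Classical in
/-- The periodic metric. -/
noncomputable def gt (Γ : Subgroup (GLn n)) (R : ℝ) (g : MF n) : MF n := fun y =>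
  if h : ∃ γ ∈ Γ, y0 (act (γ : Mx n) y) < 2 * R then pull (h.choose : Mx n) g y else gH y

theorem gt_eq (hΓ : GoodLattice n D Γ) (hD : 16 * R ^ 2 ≤ D) (g : MF n) {γ : GLn n} (hγ : γ ∈ Γ)
    {y : E n} (h : y0 (act (γ : Mx n) y) < 2 * R) : gt Γ R g y = pull (γ : Mx n) g y := by
  have h1 : ∃ γ ∈ Γ, y0 (act (γ : Mx n) y) < 2 * R := ⟨γ, hγ, h⟩
  rw [gt, dif_pos h1]
  have h2 := h1.choose_spec
  rw [uniq hΓ hD h2.1 hγ h2.2 h]

theorem gt_eq_ev (hΓ : GoodLattice n D Γ) (hD : 16 * R ^ 2 ≤ D) (g : MF n) {γ : GLn n}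
    (hγ : γ ∈ Γ) {y : E n} (h : y0 (act (γ : Mx n) y) < 2 * R) :
    ∀ᶠ z in 𝓝 y, gt Γ R g z = pull (γ : Mx n) g z := by
  have h1 : ∀ᶠ z in 𝓝 y, y0 (act (γ : Mx n) z) < 2 * R :=
    ((continuous_y0.comp (continuous_act _)).continuousAt (x := y)).eventually_lt
      (continuousAt_const (y := 2 * R)) h
  filter_upwards [h1] with z hz
  exact gt_eq hΓ hD g hγ hz

theorem gt_far (hΓ : GoodLattice n D Γ) {g : MF n} {r : ℝ}
    (hg : ∀ y, r ≤ y0 y → g y = gH y) {y : E n} (h : ∀ γ ∈ Γ, r ≤ y0 (act (γ : Mx n) y)) :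
    gt Γ R g y = gH y := by
  rw [gt]
  split_ifs with h1
  · have h2 := h1.choose_spec
    unfold pull
    rw [hg _ (h _ h2.1)]
    exact jac_act_gH (hΓ.lor _ h2.1) y
  · rfl

theorem gt_far_ev (hΓ : GoodLattice n D Γ) {g : MF n} {r b : ℝ} (hr : 0 < r) (hb : r < b)
    (hg : ∀ y, r ≤ y0 y → g y = gH y) {y : E n} (h : ∀ γ ∈ Γ, b ≤ y0 (act (γ : Mx n) y)) :
    ∀ᶠ z in 𝓝 y, gt Γ R g z = gH z := by
  filter_upwards [near_far hΓ hr hb y h] with z hz
  exact gt_far hΓ hg fun γ hγ => (hz γ hγ).le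

theorem cases_ev (hΓ : GoodLattice n D Γ) (hD : 16 * R ^ 2 ≤ D) {g : MF n} {r : ℝ} (hr : 0 < r)
    (hR : r < R) (hg : ∀ y, r ≤ y0 y → g y = gH y) (y : E n) :
    (∃ γ ∈ Γ, ∀ᶠ z in 𝓝 y, gt Γ R g z = pull (γ : Mx n) g z) ∨
      ∀ᶠ z in 𝓝 y, gt Γ R g z = gH z := by
  by_cases h : ∃ γ ∈ Γ, y0 (act (γ : Mx n) y) < 2 * R
  · obtain ⟨γ, hγ, h⟩ := h
    exact Or.inl ⟨γ, hγ, gt_eq_ev hΓ hD g hγ h⟩
  · push Not at h
    exact Or.inr (gt_far_ev hΓ hr (b := 2 * R) (by linarith) hg h)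

theorem gt_inv (hΓ : GoodLattice n D Γ) (hD : 16 * R ^ 2 ≤ D) (g : MF n) {γ : GLn n}
    (hγ : γ ∈ Γ) (y : E n) :
    gt Γ R g y = (jac (act (γ : Mx n)) y)ᵀ * gt Γ R g (act (γ : Mx n) y)
      * jac (act (γ : Mx n)) y := by
  by_cases h : ∃ δ ∈ Γ, y0 (act (δ : Mx n) y) < 2 * R
  · obtain ⟨δ, hδ, h⟩ := h
    have hm : δ * γ⁻¹ ∈ Γ := Γ.mul_mem hδ (Γ.inv_mem hγ)
    have h6 : act ((δ * γ⁻¹ : GLn n) : Mx n) (act (γ : Mx n) y) = act (δ : Mx n) y := by
      rw [← act_mul (hΓ.lor _ hγ), ← Units.val_mul, inv_mul_cancel_right]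
    rw [gt_eq hΓ hD g hδ h, gt_eq hΓ hD g hm (by rw [h6]; exact h), pull_mul (hΓ.lor _ hγ),
      ← Units.val_mul, inv_mul_cancel_right]
  · have h2 : ¬ ∃ δ ∈ Γ, y0 (act (δ : Mx n) (act (γ : Mx n) y)) < 2 * R := by
      rintro ⟨δ, hδ, h3⟩
      rw [← act_mul (hΓ.lor _ hγ), ← Units.val_mul] at h3
      exact h ⟨δ * γ, Γ.mul_mem hδ hγ, h3⟩
    rw [gt, gt, dif_neg h, dif_neg h2]
    exact (jac_act_gH (hΓ.lor _ hγ) y).symm

end

/-! ## The involution -/

theorem isLor_rhoM : IsLor (rhoM n) := by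
  constructor
  · rw [rhoM, eta, Matrix.diagonal_transpose, Matrix.diagonal_mul_diagonal,
      Matrix.diagonal_mul_diagonal]
    congr 1
    funext i
    split_ifs <;> ring
  · rw [rhoM, Matrix.diagonal_apply_eq]
    simp

theorem rhoM_mul_rhoM : rhoM n * rhoM n = 1 := by
  rw [rhoM, Matrix.diagonal_mul_diagonal, ← Matrix.diagonal_one]
  congr 1
  funext i
  split_ifs <;> ring

/-- The signs. -/
def sg {m : ℕ} (i : Fin (m + 3)) : ℝ := if i = 1 ∨ i = 2 then -1 else 1

theorem sg_sq {m : ℕ} (i : Fin (m + 3)) : sg i * sg i = 1 := by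
  unfold sg
  split_ifs <;> ring

theorem rhoM_succ {m : ℕ} (i : Fin (m + 3)) :
    (if ((i.succ : Fin (m + 3 + 1)) : ℕ) = 2 ∨ ((i.succ : Fin (m + 3 + 1)) : ℕ) = 3 then (-1 : ℝ)
      else 1) = sg i := by
  unfold sg
  have h2 : ((2 : Fin (m + 3)) : ℕ) = 2 := Nat.mod_eq_of_lt (by omega : 2 < m + 3)
  have h1 : ((1 : Fin (m + 3)) : ℕ) = 1 := Nat.mod_eq_of_lt (by omega : 1 < m + 3)
  congr 1
  rw [Fin.val_succ, Fin.ext_iff, Fin.ext_iff, h1, h2]
  apply propext
  constructor <;> rintro (h | h) <;> omega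

theorem act_rhoM {m : ℕ} (y : E (m + 3)) : act (rhoM (m + 3)) y = rh y := by
  ext i
  rw [act_apply, rhoM, Matrix.mulVec_diagonal, rhoM_succ, emb_succ]
  unfold sg rh
  simp only
  split_ifs
  · rw [neg_one_mul]
  · rw [one_mul]

theorem jac_rhoM {m : ℕ} (y : E (m + 3)) :
    jac (act (rhoM (m + 3))) y = Matrix.diagonal (sg (m := m)) := by
  ext i j
  rw [jac_act, rhoM, Matrix.diagonal_apply_ne _ (Fin.succ_ne_zero i), zero_mul, zero_div, add_zero]
  by_cases hij : i = j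
  · subst hij
    rw [Matrix.diagonal_apply_eq, Matrix.diagonal_apply_eq, rhoM_succ]
  · rw [Matrix.diagonal_apply_ne _ hij, Matrix.diagonal_apply_ne _
      (fun h => hij (Fin.succ_injective _ h))]

theorem pull_rhoM {m : ℕ} (g : MF (m + 3)) (y : E (m + 3)) (i j : Fin (m + 3)) :
    pull (rhoM (m + 3)) g y i j = sg i * sg j * g (rh y) i j := by
  unfold pull
  rw [jac_rhoM, act_rhoM, Matrix.diagonal_transpose, Matrix.mul_diagonal, Matrix.diagonal_mul]
  ring

theorem gt_rho {m : ℕ} {R D : ℝ} {Γ : Subgroup (GLn (m + 3))} (hΓ : GoodLattice (m + 3) D Γ)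
    (hD : 16 * R ^ 2 ≤ D) {g : MF (m + 3)} (hg : ∀ y i j, g (rh y) i j = sg i * sg j * g y i j)
    (y : E (m + 3)) (i j : Fin (m + 3)) :
    gt Γ R g (rh y) i j = sg i * sg j * gt Γ R g y i j := by
  have hg' : ∀ y, pull (rhoM (m + 3)) g y = g y := by
    intro y
    ext i j
    rw [pull_rhoM, hg]
    have h1 := sg_sq i
    have h2 := sg_sq j
    linear_combination (sg j * sg j * g y i j) * h1 + g y i j * h2
  -- reduction
  suffices h : pull (rhoM (m + 3)) (gt Γ R g) y = gt Γ R g y by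
    rw [← h, pull_rhoM]
    have h1 := sg_sq i
    have h2 := sg_sq j
    linear_combination (-(sg j * sg j * gt Γ R g (rh y) i j)) * h1 - gt Γ R g (rh y) i j * h2
  have hL := isLor_rhoM (n := m + 3)
  have key : ∀ γ ∈ Γ, ∀ γ' ∈ Γ, (γ' : Mx (m + 3)) = rhoM (m + 3) * γ * rhoM (m + 3) →
      (γ : Mx (m + 3)) * rhoM (m + 3) = rhoM (m + 3) * γ' := by
    intro γ _ γ' _ h
    rw [h, ← Matrix.mul_assoc, ← Matrix.mul_assoc, rhoM_mul_rhoM, Matrix.one_mul]
  have hy0 : ∀ z : E (m + 3), y0 (act (rhoM (m + 3)) z) = y0 z := by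
    intro z
    have h := q_act hL 0 z
    have h0 : act (rhoM (m + 3)) 0 = 0 := by
      rw [act_rhoM]
      ext i
      simp [rh]
    rwa [h0, q_zero, q_zero] at h
  by_cases h : ∃ γ ∈ Γ, y0 (act (γ : Mx (m + 3)) (rh y)) < 2 * R
  · obtain ⟨γ, hγ, h⟩ := h
    obtain ⟨γ', hγ', e⟩ := hΓ.rho γ hγ
    have k := key γ hγ γ' hγ' e
    have h2 : y0 (act (γ' : Mx (m + 3)) y) < 2 * R := by
      rw [← act_rhoM, ← act_mul hL, k, act_mul (hΓ.lor _ hγ'), hy0] at h
      exact h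
    have e1 : pull (rhoM (m + 3)) (gt Γ R g) y = pull (rhoM (m + 3)) (pull (γ : Mx (m + 3)) g) y := by
      unfold pull
      rw [act_rhoM, gt_eq hΓ hD g hγ h]
      rfl
    rw [e1, gt_eq hΓ hD g hγ' h2]
    have e2 : pull (rhoM (m + 3)) (pull (γ : Mx (m + 3)) g) y =
        pull ((γ : Mx (m + 3)) * rhoM (m + 3)) g y := pull_mul hL g y
    rw [e2, k, ← pull_mul (hΓ.lor _ hγ'), hg']
    rfl
  · have h2 : ¬ ∃ γ ∈ Γ, y0 (act (γ : Mx (m + 3)) y) < 2 * R := by
      rintro ⟨γ, hγ, h3⟩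
      obtain ⟨γ', hγ', e⟩ := hΓ.rho γ hγ
      refine h ⟨γ', hγ', ?_⟩
      have k : (γ' : Mx (m + 3)) * rhoM (m + 3) = rhoM (m + 3) * γ := by
        rw [e, Matrix.mul_assoc, rhoM_mul_rhoM, Matrix.mul_one]
      rw [← act_rhoM, ← act_mul hL, k, act_mul (hΓ.lor _ hγ), hy0]
      exact h3
    unfold pull
    rw [act_rhoM, gt, gt, dif_neg h, dif_neg h2]
    have := jac_act_gH hL y
    rwa [act_rhoM] at this

end GtM

open GtM in
theorem specGt (hMat : SpecMat) (hTriv : SpecTriv) (hNat : SpecNat) : SpecGt := by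
  intro m C T ε κ r1 r2 hT R D Γ hR hD hΓ
  obtain ⟨-, hTr⟩ := hTriv m C T ε κ r1 r2 hT
  have hM := hMat m T hT.tsm hT.lsm
  have hr : 0 < Real.exp r2 := Real.exp_pos r2
  have hg : ∀ y : E (m + 3), Real.exp r2 ≤ y0 y → gA T y = gH y := by
    intro y hy
    refine ((hTr y).2.1 ?_).2
    unfold rk
    rw [Real.le_log_iff_exp_le (y0_pos y)]
    exact hy
  have hsm : ∀ y : E (m + 3), ∀ i j, ContDiffAt ℝ ∞ (fun z => gA T z i j) y :=
    fun y i j => ((hM y).2.2.1 i j).contDiffAt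
  have hsH : ∀ y : E (m + 3), ∀ i j, ContDiffAt ℝ ∞ (fun z => gH z i j) y := by
    intro y i j
    simp only [gH_apply]
    exact contDiffAt_const.sub (((contDiff_coord i).contDiffAt.mul (contDiff_coord j).contDiffAt).div
      (contDiff_y0.contDiffAt.pow 2) (pow_ne_zero 2 (y0_ne y)))
  have hpA : ∀ y : E (m + 3), (gA T y).PosDef := fun y => (hM y).2.2.2
  have hpH : ∀ y : E (m + 3), (gH y).PosDef := by
    intro y
    have h0 : gH (0 : E (m + 3)) = 1 := by
      ext i j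
      rw [gH_apply, Matrix.one_apply]
      simp
    have h1 : act (boost y)⁻¹ y = 0 := by
      have := act_inv_act (isLor_boost y) 0
      rwa [act_boost_zero] at this
    rw [← jac_act_gH (isLor_boost y).inv y]
    refine posDef_pull (isLor_boost y).inv ?_
    rw [h1, h0]
    exact Matrix.PosDef.one
  refine ⟨gt Γ R (gA T), ⟨⟨?_, ?_, ?_⟩, ?_, ?_, ?_⟩, ?_⟩
  · intro i j
    rw [contDiff_iff_contDiffAt]
    intro y
    rcases cases_ev hΓ hD hr hR hg y with ⟨γ, hγ, h⟩ | h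
    · refine (contDiffAt_pull (A := (γ : Mx (m + 3))) (hsm _) i j).congr_of_eventuallyEq ?_
      filter_upwards [h] with z hz
      rw [hz]
    · refine (hsH y i j).congr_of_eventuallyEq ?_
      filter_upwards [h] with z hz
      rw [hz]
  · intro y
    rcases cases_ev hΓ hD hr hR hg y with ⟨γ, hγ, h⟩ | h
    · rw [h.self_of_nhds]
      exact posDef_pull (hΓ.lor γ hγ) (hpA _)
    · rw [h.self_of_nhds]
      exact hpH y
  · intro γ hγ y
    exact gt_inv hΓ hD _ hγ y
  · intro y hy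
    have := gt_eq hΓ hD (gA T) Γ.one_mem (y := y) (by rw [Units.val_one, act_one]; exact hy)
    rw [this, Units.val_one, pull_one]
  · intro p hp
    exact gt_far_ev hΓ hr hR hg fun γ hγ => (hp γ hγ).le
  · intro y i j
    exact gt_rho hΓ hD (fun y i j => (hTr y).2.2.2 i j) y i j
  · intro s hsA hsHs y X Y hXY
    rcases cases_ev hΓ hD hr hR hg y with ⟨γ, hγ, h⟩ | h
    · have h1 := hNat (m + 3) (act (γ : Mx (m + 3))) y (gt Γ R (gA T)) (gA T)
        (contDiff_act _).contDiffAt (jac_act_det_ne (hΓ.lor γ hγ) y)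
        ⟨hsm _, Eventually.of_forall hpA⟩ h X Y
      rw [h1.2.2.1]
      exact hsA _ _ _ (h1.2.2.2 hXY)
    · have h0 : ∀ᶠ z in 𝓝 y, gt Γ R (gA T) z = (jac (act (1 : Mx (m + 3))) z)ᵀ *
          gH (act (1 : Mx (m + 3)) z) * jac (act (1 : Mx (m + 3))) z := by
        filter_upwards [h] with z hz
        rw [hz]
        exact (pull_one gH z).symm
      have h1 := hNat (m + 3) (act (1 : Mx (m + 3))) y (gt Γ R (gA T)) gH
        (contDiff_act _).contDiffAt (jac_act_det_ne IsLor.one y)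
        ⟨hsH _, Eventually.of_forall hpH⟩ h0 X Y
      rw [h1.2.2.1]
      exact hsHs _ _ _ (h1.2.2.2 hXY)

end Pool.Agent.Lib.MPdbccd7
end

section
/-!
# MAXI: continuous invariant functions attain their maximum
-/
open scoped Manifold ContDiff Matrix

namespace Pool.Agent.Lib.MPdbccd7

namespace MaxiM

variable {n : ℕ}

theorem isCompact_ball (C : ℝ) : IsCompact {y : E n | y0 y ≤ C} := by
  refine (isCompact_closedBall (0 : E n) C).of_isClosed_subset
    (isClosed_le continuous_y0 continuous_const) ?_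
  intro y hy
  rw [mem_closedBall_zero_iff]
  exact (norm_lt_y0 y).le.trans hy

end MaxiM

open MaxiM

/-- MAXI. -/
theorem specMaxi : SpecMaxi := by
  intro n D Γ hΓ F hF hinv
  obtain ⟨C, hC⟩ := hΓ.cocpt
  obtain ⟨γ, hγ, h0⟩ := hC 0
  obtain ⟨p, _, hp⟩ := (isCompact_ball (n := n) C).exists_isMaxOn ⟨_, h0⟩ hF.continuousOn
  refine ⟨p, fun y => ?_⟩
  obtain ⟨γ', hγ', hy⟩ := hC y
  rw [← hinv γ' hγ' y]
  exact hp hy

end Pool.Agent.Lib.MPdbccd7
end

section
/-!
# MAXP: maxima of functions which are invariant outside a ball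
-/
open scoped Manifold ContDiff Matrix

namespace Pool.Agent.Lib.MPdbccd7

namespace MaxpM

variable {n : ℕ}

theorem zero_zero_le {A : Mx n} (hA : IsLor A) (y : E n) :
    A 0 0 ≤ 2 * y0 y * y0 (act A y) := by
  have h := q_le 0 (act A y) (act A 0)
  rw [q_act hA, q_zero, q_zero, q_zero_right, act_zero_zero hA] at h
  linarith

variable {D : ℝ} {Γ : Subgroup (GLn n)}

theorem exists_min (hΓ : GoodLattice n D Γ) (y : E n) :
    ∃ γ ∈ Γ, ∀ γ' ∈ Γ, y0 (act (γ : Mx n) y) ≤ y0 (act (γ' : Mx n) y) := by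
  have hfin := hΓ.disc (2 * y0 y * y0 y)
  have hy := y0_ge_one y
  have h1 : (1 : GLn n) ∈ {γ | γ ∈ Γ ∧ (γ : Mx n) 0 0 ≤ 2 * y0 y * y0 y} := by
    refine ⟨Γ.one_mem, ?_⟩
    have : ((1 : GLn n) : Mx n) 0 0 = 1 := by simp
    rw [this]
    nlinarith
  obtain ⟨γ, hγ, hmin⟩ := Set.exists_min_image _ (fun γ : GLn n => y0 (act (γ : Mx n) y)) hfin
    ⟨1, h1⟩
  refine ⟨γ, hγ.1, fun γ' hγ' => ?_⟩
  by_cases h : (γ' : Mx n) 0 0 ≤ 2 * y0 y * y0 y
  · exact hmin γ' ⟨hγ', h⟩
  · push Not at h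
    have h2 := zero_zero_le (hΓ.lor γ' hγ') y
    have h3 : y0 y < y0 (act (γ' : Mx n) y) := by
      by_contra hcon
      push Not at hcon
      have : 2 * y0 y * y0 (act (γ' : Mx n) y) ≤ 2 * y0 y * y0 y :=
        mul_le_mul_of_nonneg_left hcon (by linarith)
      linarith
    have h4 := hmin 1 h1
    simp only [Units.val_one, act_one] at h4
    exact h4.trans h3.le

/-- The Dirichlet domain. -/
def dir (Γ : Subgroup (GLn n)) : Set (E n) := {y | ∀ γ ∈ Γ, y0 y ≤ y0 (act (γ : Mx n) y)}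

theorem isClosed_dir (Γ : Subgroup (GLn n)) : IsClosed (dir Γ) := by
  have : dir Γ = ⋂ γ ∈ Γ, {y : E n | y0 y ≤ y0 (act (γ : Mx n) y)} := by
    ext y
    simp [dir]
  rw [this]
  exact isClosed_biInter fun γ _ =>
    isClosed_le continuous_y0 (continuous_y0.comp (continuous_act _))

theorem isCompact_dir (hΓ : GoodLattice n D Γ) : IsCompact (dir Γ) := by
  obtain ⟨C, hC⟩ := hΓ.cocpt
  refine (MaxiM.isCompact_ball C).of_isClosed_subset (isClosed_dir Γ) fun y hy => ?_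
  obtain ⟨γ, hγ, h⟩ := hC y
  exact (hy γ hγ).trans h

theorem exists_mem_dir (hΓ : GoodLattice n D Γ) (y : E n) :
    ∃ γ ∈ Γ, act (γ : Mx n) y ∈ dir Γ := by
  obtain ⟨γ, hγ, h⟩ := exists_min hΓ y
  refine ⟨γ, hγ, fun γ' hγ' => ?_⟩
  have h2 := h (γ' * γ) (Γ.mul_mem hγ' hγ)
  rw [Units.val_mul, act_mul (hΓ.lor γ hγ)] at h2
  exact h2

theorem far_of_ne {R : ℝ} (hR : 1 ≤ R) (hD : 4 * R ^ 2 ≤ D) (hΓ : GoodLattice n D Γ)
    {γ : GLn n} (hγ : γ ∈ Γ) (h1 : γ ≠ 1) {y : E n} (hy : y0 y < 2 * R) :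
    R < y0 (act (γ : Mx n) y) := by
  have h2 := zero_zero_le (hΓ.lor γ hγ) y
  have h3 := hΓ.disp γ hγ h1
  have h4 := y0_pos (act (γ : Mx n) y)
  by_contra hcon
  push Not at hcon
  have h5 : 2 * y0 y * y0 (act (γ : Mx n) y) ≤ 2 * (2 * R) * R := by
    have := y0_pos y
    apply mul_le_mul _ hcon h4.le (by linarith)
    linarith
  nlinarith

theorem ball_subset {R : ℝ} (hR : 1 ≤ R) (hD : 4 * R ^ 2 ≤ D) (hΓ : GoodLattice n D Γ)
    {y : E n} (hy : y0 y ≤ R) : y ∈ dir Γ := by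
  intro γ hγ
  by_cases h1 : γ = 1
  · subst h1
    simp [act_one]
  · exact hy.trans (far_of_ne hR hD hΓ hγ h1 (by linarith)).le

end MaxpM

open MaxpM

/-- MAXP. -/
theorem specMaxp : SpecMaxp := by
  intro n D Γ hΓ R hR hD F hF hinv
  obtain ⟨γ0, hγ0, h0⟩ := exists_mem_dir hΓ (0 : E n)
  obtain ⟨p, hpD, hp⟩ := (isCompact_dir hΓ).exists_isMaxOn ⟨_, h0⟩ hF.continuousOn
  have hball : ∀ y, y0 y ≤ R → F y ≤ F p := fun y hy => hp (ball_subset hR hD hΓ hy)
  by_cases hpR : y0 p ≤ R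
  · refine ⟨p, ?_, hball, Or.inl hpR⟩
    have hev : ∀ᶠ y in nhds p, y0 y < 2 * R :=
      continuous_y0.continuousAt.eventually_lt continuousAt_const (by linarith)
    filter_upwards [hev] with y hy
    by_cases hyD : y ∈ dir Γ
    · exact hp hyD
    · have hyR : R < y0 y := by
        by_contra hcon
        push Not at hcon
        exact hyD (ball_subset hR hD hΓ hcon)
      obtain ⟨γ, hγ, hmem⟩ := exists_mem_dir hΓ y
      have h1 : γ ≠ 1 := by
        rintro rfl
        rw [Units.val_one, act_one] at hmem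
        exact hyD hmem
      rw [← hinv γ hγ y hyR.le (far_of_ne hR hD hΓ hγ h1 hy).le]
      exact hp hmem
  · push Not at hpR
    have hall : ∀ γ ∈ Γ, R < y0 (act (γ : Mx n) p) := fun γ hγ => hpR.trans_le (hpD γ hγ)
    refine ⟨p, ?_, hball, Or.inr hall⟩
    have hfin := hΓ.disc (2 * (y0 p + 1) * R)
    have hev1 : ∀ᶠ y in nhds p, y0 y < y0 p + 1 :=
      continuous_y0.continuousAt.eventually_lt continuousAt_const (by linarith)
    have hev2 : ∀ᶠ y in nhds p, ∀ γ ∈ {γ | γ ∈ Γ ∧ (γ : Mx n) 0 0 ≤ 2 * (y0 p + 1) * R},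
        R < y0 (act (γ : Mx n) y) := by
      rw [Filter.eventually_all_finite hfin]
      intro γ hγ
      exact continuousAt_const.eventually_lt
        (continuous_y0.comp (continuous_act (γ : Mx n))).continuousAt (hall γ hγ.1)
    filter_upwards [hev1, hev2] with y hy1 hy2
    have hyall : ∀ γ ∈ Γ, R < y0 (act (γ : Mx n) y) := by
      intro γ hγ
      by_cases h : (γ : Mx n) 0 0 ≤ 2 * (y0 p + 1) * R
      · exact hy2 γ ⟨hγ, h⟩
      · push Not at h
        have h2 := zero_zero_le (hΓ.lor γ hγ) y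
        by_contra hcon
        push Not at hcon
        have h5 : 2 * y0 y * y0 (act (γ : Mx n) y) ≤ 2 * (y0 p + 1) * R := by
          have := y0_pos y
          apply mul_le_mul _ hcon (y0_pos _).le (by linarith [y0_pos p])
          linarith
        linarith
    obtain ⟨γ, hγ, hmem⟩ := exists_mem_dir hΓ y
    have hyR := hyall 1 Γ.one_mem
    rw [Units.val_one, act_one] at hyR
    rw [← hinv γ hγ y hyR.le (hyall γ hγ).le]
    exact hp hmem

end Pool.Agent.Lib.MPdbccd7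
end

section
/-!
# NEAR: comparison of the harmonic map with the gauge map inside
-/
open scoped Manifold ContDiff Matrix Topology

namespace Pool.Agent.Lib.MPdbccd7

namespace NearM

open FarM

variable {m : ℕ} {C C1 C2 δ ε κ Ya Yb r1 r2 R D : ℝ} {T : Tw}
  {Γ : Subgroup (GLn (m + 3))} {g : MF (m + 3)} {u : E (m + 3) → E (m + 3)}

theorem par_pos (hc : Ctx m C C1 C2 δ ε κ Ya Yb r1 r2 R D T Γ g u) :
    0 < ε ∧ 1 ≤ Ya ∧ 4 ≤ Yb ∧ 0 < R := by
  have h1 := hc.tw.hε.1
  have h2 := hc.par.hYa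
  have h3 := hc.par.hab
  have h4 := hc.par.hbR
  exact ⟨h1, h2, by linarith, by linarith⟩

/-- The value of the barrier `S` at `y₀ = Yb`. -/
theorem S_Yb (hc : Ctx m C C1 C2 δ ε κ Ya Yb r1 r2 R D T Γ g u) :
    sv m Ya R Yb ≤ 1 / 200 := by
  obtain ⟨-, hYa, hYb, hR⟩ := par_pos hc
  have hL := Real.log_nonneg hYa
  have hSb := hc.par.hSb
  have hYb0 : 0 < Yb := by linarith
  have hYa0 : 0 < Ya := by linarith
  have hR' := hc.par.hbR
  unfold sv Bc
  have h1 : 0 ≤ Yb⁻¹ - 1 / R := by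
    have : 1 / R ≤ Yb⁻¹ := by
      rw [one_div]
      exact inv_anti₀ hYb0 hR'
    linarith
  have h2 : (Yb⁻¹ - 1 / R) ^ 2 ≤ Yb⁻¹ ^ 2 := by
    apply pow_le_pow_left₀ h1
    have : 0 < 1 / R := by positivity
    linarith
  have h3 : (Ya / Yb) ^ m ≤ 1 := by
    apply pow_le_one₀ (by positivity)
    rw [div_le_one hYb0]
    have := hc.par.hab
    linarith
  have h4 : (3 * Real.log Ya + 4) * Ya ^ (m + 2) * (Yb⁻¹ - 1 / R) ^ 2 * Yb⁻¹ ^ m
      ≤ (3 * Real.log Ya + 4) * (Ya / Yb) ^ 2 := by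
    calc _ ≤ (3 * Real.log Ya + 4) * Ya ^ (m + 2) * Yb⁻¹ ^ 2 * Yb⁻¹ ^ m := by
          gcongr
      _ = (3 * Real.log Ya + 4) * (Ya / Yb) ^ 2 * (Ya / Yb) ^ m := by
          rw [div_pow, div_pow, inv_pow, inv_pow, pow_add]
          field_simp
      _ ≤ (3 * Real.log Ya + 4) * (Ya / Yb) ^ 2 * 1 := by
          apply mul_le_mul_of_nonneg_left h3
          positivity
      _ = _ := mul_one _
  linarith

end NearM

open FarM NearM in
theorem specNear (hCal : SpecCal) (hHeq : SpecHeq) (hBoc : SpecBoc) (hPerp : SpecPerp)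
    (hTriv : SpecTriv) (hBarh : SpecBarh) (hYh : SpecYh) (hGauge : SpecGauge) : SpecNear := by
  intro m C C1 C2 δ ε κ Ya Yb r1 r2 R D T Γ g u hc hfar
  obtain ⟨hε, hYa, hYb, hR⟩ := par_pos hc
  have hYb0 : 0 < Yb := by linarith
  have hY : ContDiff ℝ ∞ (Phi T 1 (m := m)) := (hGauge m T 1 hc.tw.tsm hc.tw.lsm).1
  have hH := hBarh m T hc.tw.tsm hc.tw.lsm ε hε hc.tw.hε.2
  have hLb : 0 ≤ Real.log Yb := Real.log_nonneg (by linarith)
  set K : ℝ := (2 * Real.log Yb + 2) * 2 ^ (m + 3) with hK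
  have hK0 : 0 ≤ K := by positivity
  -- the boundary
  have hbd : ∀ y : E (m + 3), y0 y = Yb →
      Real.log (q (u y) (Phi T 1 y)) ≤ 1 / 200 + K * Hb ε y := by
    intro y hy
    have hf := hfar y (by rw [hy]; exact hc.par.hab) (by rw [hy]; exact hc.par.hbR)
    rw [Sb_eq, hy] at hf
    have hs := S_Yb hc
    have hHy := (hH.2 y).2.1
    by_cases ht : ε ≤ |tk y|
    · obtain ⟨h1, h2⟩ := ((hTriv m C T ε κ r1 r2 hc.tw).2 y).1 ht
      rw [h2] at hf
      rw [h1]
      have : 0 ≤ K * Hb ε y := mul_nonneg hK0 hHy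
      linarith
    · push Not at ht
      have h1 := (hH.2 y).2.2.1 ht.le (by rw [hy]; exact hc.par.hHb)
      have h2 : 2 * Real.log Yb + 2 ≤ K * Hb ε y := by
        calc 2 * Real.log Yb + 2 = K * (1 / 2) ^ (m + 3) := by
              rw [hK, mul_assoc, ← mul_pow]
              norm_num
          _ ≤ _ := mul_le_mul_of_nonneg_left h1 hK0
      have hv := ((hTriv m C T ε κ r1 r2 hc.tw).2 y).2.2.1
      have hphi : y0 (Phi T 1 y) = y0 y := ((hGauge m T 1 hc.tw.tsm hc.tw.lsm).2 y).2.2.1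
      have h3 := q_le (u y) (vA T y) (Phi T 1 y)
      have h4 := q_le (vA T y) 0 (Phi T 1 y)
      rw [q_zero_right, q_zero, hphi, hy] at h4
      rw [hy] at hv
      have p1 := q_pos (u y) (vA T y)
      have p2 := q_pos (u y) (Phi T 1 y)
      have p3 := q_pos (vA T y) (Phi T 1 y)
      have p4 := y0_pos (vA T y)
      have h5 : q (u y) (Phi T 1 y) ≤ q (u y) (vA T y) * (4 * Yb ^ 2) := by
        calc _ ≤ 2 * q (u y) (vA T y) * q (vA T y) (Phi T 1 y) := h3
          _ ≤ 2 * q (u y) (vA T y) * (2 * y0 (vA T y) * Yb) := by gcongr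
          _ ≤ 2 * q (u y) (vA T y) * (2 * Yb * Yb) := by gcongr
          _ = _ := by ring
      have h6 : Real.log (q (u y) (Phi T 1 y))
          ≤ Real.log (q (u y) (vA T y)) + (2 * Real.log 2 + 2 * Real.log Yb) := by
        refine (Real.log_le_log p2 h5).trans (le_of_eq ?_)
        rw [Real.log_mul p1.ne' (by positivity), Real.log_mul (by norm_num) (by positivity),
          Real.log_pow]
        have : Real.log 4 = 2 * Real.log 2 := by
          rw [show (4 : ℝ) = 2 ^ 2 by norm_num, Real.log_pow]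
          norm_num
        rw [this]
        push_cast
        ring
      have hl := Real.log_two_lt_d9
      linarith
  -- the maximum
  set F : E (m + 3) → ℝ := fun y => Real.log (q (u y) (Phi T 1 y)) - (1 / 200 + K * Hb ε y)
    with hF
  have hc1 : ContDiff ℝ ∞ (fun z => Real.log (q (u z) (Phi T 1 z))) :=
    contDiff_logq hc.harm.smooth hY
  have hc2 : ContDiff ℝ ∞ (fun z : E (m + 3) => 1 / 200 + K * Hb ε z) :=
    contDiff_const.add (contDiff_const.mul hH.1)
  have hcomp : IsCompact {y : E (m + 3) | y0 y ≤ Yb} := by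
    apply Metric.isCompact_of_isClosed_isBounded
    · exact isClosed_le continuous_y0 continuous_const
    · refine (Metric.isBounded_closedBall (x := (0 : E (m + 3))) (r := Yb)).subset ?_
      intro y hy
      rw [mem_closedBall_zero_iff]
      exact (norm_lt_y0 y).le.trans hy
  have hne : ({y : E (m + 3) | y0 y ≤ Yb}).Nonempty :=
    ⟨0, by rw [Set.mem_setOf_eq, y0_zero]; linarith⟩
  obtain ⟨p, hpm, hpmax⟩ := hcomp.exists_isMaxOn hne (hc1.sub hc2).continuous.continuousOn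
  suffices hFp : F p ≤ 0 by
    intro y hy
    have := hpmax (show y ∈ {y : E (m + 3) | y0 y ≤ Yb} from hy)
    simp only [Set.mem_setOf_eq] at this
    have h2 : F y ≤ F p := this
    have h3 : F y = Real.log (q (u y) (Phi T 1 y)) - (1 / 200 + K * Hb ε y) := rfl
    linarith
  by_contra hFp
  push Not at hFp
  have hFp' : 1 / 200 + K * Hb ε p < Real.log (q (u p) (Phi T 1 p)) := by
    have h3 : F p = Real.log (q (u p) (Phi T 1 p)) - (1 / 200 + K * Hb ε p) := rfl
    linarith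
  rcases (show y0 p ≤ Yb from hpm).eq_or_lt with hp | hp
  · have := hbd p hp
    linarith
  · have hnb : ∀ᶠ y in 𝓝 p, y0 y < Yb :=
      (continuous_y0.tendsto p).eventually (gt_mem_nhds hp)
    have hbR := hc.par.hbR
    have hg : g =ᶠ[𝓝 p] gA T := by
      filter_upwards [hnb] with y hy
      exact hc.per.ball y (by linarith)
    have hmet := metAt hc.per.inv p
    have hloc : IsLocalMax (fun z => Real.log (q (u z) (Phi T 1 z)) - (1 / 200 + K * Hb ε z)) p := by
      filter_upwards [hnb] with y hy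
      exact hpmax (show y ∈ {y : E (m + 3) | y0 y ≤ Yb} from hy.le)
    have hHp := (hH.2 p).2.1
    have hlogp : 0 < Real.log (q (u p) (Phi T 1 p)) := by
      have : 0 ≤ K * Hb ε p := mul_nonneg hK0 hHp
      linarith
    have hq1 : 1 < q (u p) (Phi T 1 p) := by
      by_contra h
      push Not at h
      have := Real.log_nonpos (q_pos _ _).le h
      linarith
    have htu : ∀ k, tv g u k p = 0 := by
      intro k
      rw [← hHeq]
      exact hc.harm.harm k p
    have hrk : rk p < r1 := by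
      unfold rk
      exact (Real.log_lt_log (y0_pos p) hp).trans hc.par.hr1
    have htY : ∀ k, tv g (Phi T 1) k p = 0 := by
      intro k
      rw [tv_congr hCal hmet hg]
      exact hYh m C T ε κ r1 r2 hc.tw p hrk k
    have htn : tn g (Phi T 1) p = 0 := by
      unfold tn hn
      simp [htY]
    have hboc := hBoc _ g u (Phi T 1) p hmet hc.harm.smooth.contDiffAt hY.contDiffAt htu hq1
    have hp1 := (hPerp _ g u (Phi T 1 p) p hmet hc.harm.smooth.contDiffAt hq1).2 (by omega)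
      (hc.harm.imm p)
    have hp2 := (hPerp _ g (Phi T 1) (u p) p hmet hY.contDiffAt (by rw [q_comm]; exact hq1)).1
    have h3 : 0 < 1 - 1 / q (u p) (Phi T 1 p) := by
      rw [sub_pos, div_lt_one (by linarith)]
      exact hq1
    have h4 : 0 < (1 - 1 / q (u p) (Phi T 1 p))
        * (perp g u (Phi T 1 p) p + perp g (Phi T 1) (u p) p) := mul_pos h3 (by linarith)
    have hcal := hCal _ g p hmet
    have hl := hcal.2.2.2.2.2.2 _ (hc1.sub hc2).contDiffAt hloc
    have he := (hcal.2.2.2.1 _ _ hc1.contDiffAt hc2.contDiffAt).2.1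
    rw [he] at hl
    have hs1 : lap g (fun z => 1 / 200 + K * Hb ε z) p
        = lap g (fun _ => 1 / 200) p + lap g (fun z => K * Hb ε z) p :=
      (hcal.2.2.2.1 (fun _ => 1 / 200) (fun z => K * Hb ε z) contDiffAt_const
        (contDiffAt_const.mul hH.1.contDiffAt)).1
    have hs2 := hcal.2.2.1 (1 / 200)
    have hs3 := hcal.2.2.2.2.1 K (Hb ε) hH.1.contDiffAt
    have hs4 : lap g (Hb ε) p = 0 := by
      rw [hcal.1 _ _ hg]
      exact (hH.2 p).1
    rw [htn] at hboc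
    rw [hs1, hs2, hs3, hs4] at hl
    linarith

end Pool.Agent.Lib.MPdbccd7
end

section
/-!
# PAR: the parameters exist
-/
set_option autoImplicit false

open Filter Topology

namespace Pool.Agent.Lib.MPdbccd7

namespace ParM

theorem tid : Tendsto (fun x : ℝ => x) (𝓝[>] 0) (𝓝 0) :=
  tendsto_nhdsWithin_of_tendsto_nhds tendsto_id

theorem tendsto_pow (k : ℕ) (hk : k ≠ 0) (a : ℝ) :
    Tendsto (fun x : ℝ => a * x ^ k) (𝓝[>] 0) (𝓝 0) := by
  have h := (tid.pow k).const_mul a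
  rwa [zero_pow hk, mul_zero] at h

theorem tendsto_log (a b : ℝ) :
    Tendsto (fun x : ℝ => (a * (-Real.log x) + b) * x) (𝓝[>] 0) (𝓝 0) := by
  have h1 : Tendsto (fun x : ℝ => Real.log x * x) (𝓝[>] 0) (𝓝 0) :=
    tendsto_nhdsWithin_of_tendsto_nhds (by
      have := Real.continuous_mul_log.tendsto 0
      simpa [mul_comm] using this)
  have h2 := (h1.const_mul (-a)).add (tid.const_mul b)
  rw [mul_zero, mul_zero, add_zero] at h2
  refine h2.congr fun x => ?_
  ring

end ParM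

open ParM in
theorem specPar : SpecPar := by
  intro m C1 C2 δ hC1 hC2 hδ
  have e1 : ∀ᶠ ε : ℝ in 𝓝[>] 0, 2 * C1 * ε ^ 2 < 1 / 6400 :=
    (tendsto_pow 2 two_ne_zero (2 * C1)).eventually_lt_const (by norm_num)
  have e2 : ∀ᶠ ε : ℝ in 𝓝[>] 0, C2 * ε ^ 10 < min δ 1 :=
    (tendsto_pow 10 (by norm_num) C2).eventually_lt_const (by positivity)
  have e3 : ∀ᶠ ε : ℝ in 𝓝[>] 0, (36 * (-Real.log ε) + 4) * ε < 1 / 400 :=
    (tendsto_log 36 4).eventually_lt_const (by norm_num)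
  have e4 : ∀ᶠ ε : ℝ in 𝓝[>] 0, (2 ^ (m + 3) * 9 * 26 * (-Real.log ε) + 2 ^ (m + 3) * 9 * 2) * ε
      < 1 / 100 :=
    (tendsto_log _ _).eventually_lt_const (by norm_num)
  have e5 : ∀ᶠ ε : ℝ in 𝓝[>] 0, ε < 1 / 8 := tid.eventually_lt_const (by norm_num)
  have e6 : ∀ᶠ ε : ℝ in 𝓝[>] 0, (0 : ℝ) < ε := self_mem_nhdsWithin
  obtain ⟨ε, h1, h2, h3, h4, h5, h0⟩ :=
    (e1.and (e2.and (e3.and (e4.and (e5.and e6))))).exists
  have hi : 8 ≤ ε⁻¹ := by
    rw [le_inv_comm₀ (by norm_num) h0]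
    linarith
  have hi1 : 1 ≤ ε⁻¹ := by linarith
  have hε1 : ε ≤ 1 := by linarith
  have hlog : 0 ≤ -Real.log ε := by
    have := Real.log_nonpos h0.le hε1
    linarith
  have hYa : (1 : ℝ) ≤ ε⁻¹ ^ 12 := one_le_pow₀ hi1
  have hYb : (1 : ℝ) ≤ ε⁻¹ ^ 13 := one_le_pow₀ hi1
  have hlYa : Real.log (ε⁻¹ ^ 12) = 12 * (-Real.log ε) := by
    rw [Real.log_pow, Real.log_inv]
    norm_num
  have hlYb : Real.log (ε⁻¹ ^ 13) = 13 * (-Real.log ε) := by
    rw [Real.log_pow, Real.log_inv]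
    norm_num
  have hm2 : C2 * (ε ^ 12 / ε ^ 2) = C2 * ε ^ 10 := by
    field_simp
  refine ⟨ε, ε ^ 12, ε⁻¹ ^ 12, ε⁻¹ ^ 13, Real.log (ε⁻¹ ^ 13) + 1, h0, h5.le, by positivity,
    pow_le_one₀ h0.le hε1, ?_, fun r2 => ?_⟩
  · rw [hlYb]
    linarith
  set B : ℝ := 2 * (m + 3) ^ 2 * ((3 * Real.log (ε⁻¹ ^ 12) + 4) * (ε⁻¹ ^ 12) ^ (m + 2)) with hB
  have hB0 : 0 ≤ B := by
    rw [hB, hlYa]
    positivity
  have hx := Real.exp_pos r2
  refine ⟨20 * ε⁻¹ ^ 12 + ε⁻¹ ^ 13 + 2 * Real.exp r2 + 6400 * B, hYa, ?_, ?_, ?_, ?_, ?_, ?_, ?_,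
    ?_, ?_, ?_, ?_, ?_⟩
  · linarith
  · rw [pow_succ ε⁻¹ 12]
    nlinarith
  · linarith
  · linarith
  · linarith
  · have : C1 / ε ^ 10 * (ε ^ 12 + 1 / ε⁻¹ ^ 12) = 2 * C1 * ε ^ 2 := by
      field_simp
      ring
    rw [this]
    exact h1.le
  · rw [mul_one_div, div_le_div_iff₀ (by linarith) (by norm_num)]
    linarith
  · have : (ε⁻¹ ^ 12 / ε⁻¹ ^ 13) ^ 2 = ε * ε := by
      field_simp
    rw [this, hlYa]
    calc (3 * (12 * -Real.log ε) + 4) * (ε * ε)
        = ((36 * (-Real.log ε) + 4) * ε) * ε := by ring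
      _ ≤ 1 / 400 * 1 := by
          apply mul_le_mul h3.le hε1 h0.le (by norm_num)
      _ = 1 / 400 := mul_one _
  · have : ε * ε⁻¹ ^ 13 = ε⁻¹ ^ 12 := by
      field_simp
    rw [this]
    exact hYa
  · rw [hlYb]
    refine le_trans (le_of_eq ?_) h4.le
    ring
  · rw [hm2]
    exact lt_of_lt_of_le h2 (min_le_left _ _)
  · rw [hm2]
    exact (lt_of_lt_of_le h2 (min_le_right _ _)).le

end Pool.Agent.Lib.MPdbccd7
end

section
/-!
# SYM: the harmonic map commutes with the rotation `ρ`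
-/
open scoped Manifold ContDiff Matrix Topology

namespace Pool.Agent.Lib.MPdbccd7

namespace SymM

open FarM

variable {m : ℕ}

/-- The signs. -/
def sg (i : Fin (m + 3)) : ℝ := if i = 1 ∨ i = 2 then -1 else 1

theorem sg_mul (i : Fin (m + 3)) : sg i * sg i = 1 := by
  unfold sg
  split_ifs <;> norm_num

theorem sg_cases (i : Fin (m + 3)) : sg i = 1 ∨ sg i = -1 := by
  unfold sg
  split_ifs <;> simp

theorem rh_apply (y : E (m + 3)) (i : Fin (m + 3)) : rh y i = sg i * y i := by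
  unfold rh sg
  simp only
  split_ifs <;> simp

theorem rh_rh (y : E (m + 3)) : rh (rh y) = y := by
  ext i
  rw [rh_apply, rh_apply, ← mul_assoc, sg_mul, one_mul]

/-- `rh` as a linear map. -/
noncomputable def rhL : E (m + 3) →ₗ[ℝ] E (m + 3) where
  toFun := rh
  map_add' x y := by
    ext i
    simp only [rh_apply, PiLp.add_apply]
    ring
  map_smul' c x := by
    ext i
    simp only [rh_apply, PiLp.smul_apply, smul_eq_mul, RingHom.id_apply]
    ring

/-- `rh` as a continuous linear equivalence. -/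
noncomputable def rhE : E (m + 3) ≃L[ℝ] E (m + 3) :=
  (LinearEquiv.ofInvolutive rhL (fun y => rh_rh y)).toContinuousLinearEquiv

theorem rhE_apply (y : E (m + 3)) : rhE y = rh y := rfl

theorem contDiff_rh : ContDiff ℝ ∞ (rh (m := m)) := by
  have : (rh (m := m)) = rhE := by
    funext y
    rfl
  rw [this]
  exact rhE.contDiff

theorem pd_rh (f : E (m + 3) → ℝ) (y : E (m + 3)) (i : Fin (m + 3)) :
    pd i (fun z => f (rh z)) y = sg i * pd i f (rh y) := by
  have h : (fun z => f (rh z)) = f ∘ rhE := by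
    funext z
    rfl
  rw [pd_def, h, rhE.comp_right_fderiv, ContinuousLinearMap.comp_apply]
  have h2 : ((rhE : E (m + 3) ≃L[ℝ] E (m + 3)) : E (m + 3) →L[ℝ] E (m + 3))
      (EuclideanSpace.single i 1) = sg i • EuclideanSpace.single i (1 : ℝ) := by
    change rh (EuclideanSpace.single i 1) = _
    ext j
    rw [rh_apply]
    by_cases hj : j = i
    · subst hj
      simp
    · simp [hj]
  rw [h2, map_smul, smul_eq_mul]
  rfl

theorem pd_sg (f : E (m + 3) → ℝ) (y : E (m + 3)) (i k : Fin (m + 3)) :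
    pd i (fun z => sg k * f z) y = sg k * pd i f y := by
  rcases sg_cases k with h | h
  · simp [h]
  · simp only [h, neg_mul, one_mul]
    exact pd_neg f y i

theorem y0_rh (y : E (m + 3)) : y0 (rh y) = y0 y := by
  unfold y0
  congr 2
  refine Finset.sum_congr rfl fun i _ => ?_
  rw [rh_apply, mul_pow, sq (sg i), sg_mul, one_mul]

theorem q_rh (x y : E (m + 3)) : q (rh x) (rh y) = q x y := by
  unfold q
  rw [y0_rh, y0_rh]
  congr 1
  refine Finset.sum_congr rfl fun i _ => ?_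
  rw [rh_apply, rh_apply]
  calc _ = (sg i * sg i) * (x i * y i) := by ring
    _ = _ := by rw [sg_mul, one_mul]

theorem continuous_rh : Continuous (rh (m := m)) := contDiff_rh.continuous

/-! ### The metric -/

/-- The diagonal matrix of signs. -/
noncomputable def Dm (m : ℕ) : Matrix (Fin (m + 3)) (Fin (m + 3)) ℝ := Matrix.diagonal sg

theorem Dm_mul : Dm m * Dm m = 1 := by
  unfold Dm
  rw [Matrix.diagonal_mul_diagonal]
  simp only [sg_mul]
  exact Matrix.diagonal_one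

theorem Dm_inv : (Dm m)⁻¹ = Dm m := Matrix.inv_eq_right_inv Dm_mul

theorem Dm_det : (Dm m).det * (Dm m).det = 1 := by
  rw [← Matrix.det_mul, Dm_mul, Matrix.det_one]

variable {g : MF (m + 3)}

theorem g_rh (hg : ∀ y i j, g (rh y) i j = (if i = 1 ∨ i = 2 then -1 else 1)
    * (if j = 1 ∨ j = 2 then -1 else 1) * g y i j) (y : E (m + 3)) :
    g (rh y) = Dm m * g y * Dm m := by
  ext i j
  unfold Dm
  rw [Matrix.mul_diagonal, Matrix.diagonal_mul, hg]
  unfold sg
  ring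

theorem det_rh (hg : ∀ y, g (rh y) = Dm m * g y * Dm m) (y : E (m + 3)) :
    (g (rh y)).det = (g y).det := by
  rw [hg, Matrix.det_mul, Matrix.det_mul]
  calc _ = ((Dm m).det * (Dm m).det) * (g y).det := by ring
    _ = _ := by rw [Dm_det, one_mul]

theorem inv_rh (hg : ∀ y, g (rh y) = Dm m * g y * Dm m) (y : E (m + 3)) (i j : Fin (m + 3)) :
    (g (rh y))⁻¹ i j = sg i * sg j * (g y)⁻¹ i j := by
  rw [hg, Matrix.mul_inv_rev, Matrix.mul_inv_rev, Dm_inv]
  unfold Dm
  rw [← Matrix.mul_assoc, Matrix.mul_diagonal, Matrix.diagonal_mul]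
  ring

theorem lap_rh (hg : ∀ y, g (rh y) = Dm m * g y * Dm m) (f : E (m + 3) → ℝ) (y : E (m + 3)) :
    lap g (fun z => f (rh z)) y = lap g f (rh y) := by
  unfold lap
  rw [det_rh hg]
  congr 1
  refine Finset.sum_congr rfl fun i _ => Finset.sum_congr rfl fun j _ => ?_
  have h1 : (fun z => Real.sqrt (g z).det * (g z)⁻¹ i j * pd j (fun w => f (rh w)) z)
      = fun z => sg i * (fun x => (fun w => Real.sqrt (g w).det * (g w)⁻¹ i j * pd j f w)
        (rh x)) z := by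
    funext z
    simp only
    rw [pd_rh, det_rh hg, inv_rh hg]
    calc _ = (sg i * sg i) * (Real.sqrt (g z).det * (g z)⁻¹ i j * (sg j * pd j f (rh z))) := by
          rw [sg_mul, one_mul]
      _ = _ := by ring
  have h2 : pd i (fun x => (fun w => Real.sqrt (g w).det * (g w)⁻¹ i j * pd j f w) (rh x)) y
      = sg i * pd i (fun w => Real.sqrt (g w).det * (g w)⁻¹ i j * pd j f w) (rh y) :=
    pd_rh (fun w => Real.sqrt (g w).det * (g w)⁻¹ i j * pd j f w) y i
  have h3 := pd_sg (fun x => (fun w => Real.sqrt (g w).det * (g w)⁻¹ i j * pd j f w) (rh x)) y i i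
  calc _ = pd i (fun z => sg i * (fun x => (fun w => Real.sqrt (g w).det * (g w)⁻¹ i j
        * pd j f w) (rh x)) z) y := congrArg (fun F => pd i F y) h1
    _ = _ := h3
    _ = sg i * (sg i * pd i (fun w => Real.sqrt (g w).det * (g w)⁻¹ i j * pd j f w) (rh y)) :=
        congrArg (fun x => sg i * x) h2
    _ = _ := by rw [← mul_assoc, sg_mul, one_mul]

/-! ### The conjugate map -/

/-- The conjugate map `ρ u ρ`. -/
noncomputable def cj (u : E (m + 3) → E (m + 3)) (y : E (m + 3)) : E (m + 3) := rh (u (rh y))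

theorem pd_cj (u : E (m + 3) → E (m + 3)) (y : E (m + 3)) (i k : Fin (m + 3)) :
    pd i (fun z => cj u z k) y = sg k * sg i * pd i (fun z => u z k) (rh y) := by
  have h : (fun z => cj u z k) = fun z => sg k * (fun x => (fun w => u w k) (rh x)) z := by
    funext z
    simp only [cj, rh_apply]
  have h2 : pd i (fun x => (fun w => u w k) (rh x)) y = sg i * pd i (fun w => u w k) (rh y) :=
    pd_rh (fun w => u w k) y i
  rw [h, pd_sg, h2]
  ring

theorem fI_cj (u : E (m + 3) → E (m + 3)) (y : E (m + 3)) (i j : Fin (m + 3)) :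
    fI (cj u) y i j = sg i * sg j * fI u (rh y) i j := by
  unfold fI
  have h0 : y0 (cj u y) = y0 (u (rh y)) := by
    unfold cj
    rw [y0_rh]
  have h1 : ∀ a b : Fin (m + 3), (∑ k, pd a (fun z => cj u z k) y * pd b (fun z => cj u z k) y)
      = sg a * sg b * ∑ k, pd a (fun z => u z k) (rh y) * pd b (fun z => u z k) (rh y) := by
    intro a b
    rw [Finset.mul_sum]
    refine Finset.sum_congr rfl fun k _ => ?_
    rw [pd_cj, pd_cj]
    calc _ = (sg k * sg k) * (sg a * sg b * (pd a (fun z => u z k) (rh y)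
          * pd b (fun z => u z k) (rh y))) := by ring
      _ = _ := by rw [sg_mul, one_mul]
  have h2 : ∀ a : Fin (m + 3), (∑ k, cj u y k * pd a (fun z => cj u z k) y)
      = sg a * ∑ k, u (rh y) k * pd a (fun z => u z k) (rh y) := by
    intro a
    rw [Finset.mul_sum]
    refine Finset.sum_congr rfl fun k _ => ?_
    rw [pd_cj]
    have : cj u y k = sg k * u (rh y) k := by
      unfold cj
      rw [rh_apply]
    rw [this]
    calc _ = (sg k * sg k) * (sg a * (u (rh y) k * pd a (fun z => u z k) (rh y))) := by ring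
      _ = _ := by rw [sg_mul, one_mul]
  rw [h0, h1, h2, h2]
  ring

theorem en_cj (hg : ∀ y, g (rh y) = Dm m * g y * Dm m) (u : E (m + 3) → E (m + 3))
    (y : E (m + 3)) : en g (cj u) y = en g u (rh y) := by
  unfold en
  refine Finset.sum_congr rfl fun i _ => Finset.sum_congr rfl fun j _ => ?_
  rw [fI_cj, inv_rh hg]
  ring

theorem tv_cj (hCal : SpecCal) (hg : ∀ y, g (rh y) = Dm m * g y * Dm m)
    {u : E (m + 3) → E (m + 3)} (hu : ContDiff ℝ ∞ u)
    (k : Fin (m + 3)) (y : E (m + 3)) (hmet : MetAt g y) :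
    tv g (cj u) k y = sg k * tv g u k (rh y) := by
  unfold tv
  rw [en_cj hg]
  have h1 : (fun z => cj u z k) = fun z => sg k * (fun x => (fun w => u w k) (rh x)) z := by
    funext z
    simp only [cj, rh_apply]
  have h2 : cj u y k = sg k * u (rh y) k := by
    unfold cj
    rw [rh_apply]
  have h3 : ContDiff ℝ ∞ (fun x => (fun w => u w k) (rh x)) :=
    ((contDiff_coord k).comp hu).comp contDiff_rh
  have h4 : lap g (fun x => (fun w => u w k) (rh x)) y = lap g (fun w => u w k) (rh y) :=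
    lap_rh hg (fun w => u w k) y
  rw [h1, h2, (hCal _ g y hmet).2.2.2.2.1 (sg k) _ h3.contDiffAt, h4]
  ring

/-! ### The group -/

theorem act_rhoM (y : E (m + 3)) : act (rhoM (m + 3)) y = rh y := by
  ext i
  rw [act_apply, rh_apply]
  unfold rhoM sg
  rw [Matrix.mulVec_diagonal, emb_succ]
  congr 1
  have h1 : (i = 1 ∨ i = 2) ↔ (((i.succ : Fin (m + 3 + 1)) : ℕ) = 2
      ∨ ((i.succ : Fin (m + 3 + 1)) : ℕ) = 3) := by
    rw [Fin.ext_iff, Fin.ext_iff, Fin.val_succ]
    have e1 : ((1 : Fin (m + 3)) : ℕ) = 1 := rfl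
    have e2 : ((2 : Fin (m + 3)) : ℕ) = 2 := rfl
    rw [e1, e2]
    omega
  simp only [h1]

theorem rhoM_mul : rhoM (m + 3) * rhoM (m + 3) = 1 := by
  unfold rhoM
  rw [Matrix.diagonal_mul_diagonal]
  have : (fun i : Fin (m + 3 + 1) => (if (i : ℕ) = 2 ∨ (i : ℕ) = 3 then (-1 : ℝ) else 1)
      * (if (i : ℕ) = 2 ∨ (i : ℕ) = 3 then (-1 : ℝ) else 1)) = fun _ => 1 := by
    funext i
    split_ifs <;> norm_num
  rw [this]
  exact Matrix.diagonal_one

theorem isLor_rhoM : IsLor (rhoM (m + 3)) := by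
  constructor
  · unfold rhoM eta
    rw [Matrix.diagonal_transpose, Matrix.diagonal_mul_diagonal, Matrix.diagonal_mul_diagonal]
    congr 1
    funext i
    split_ifs <;> ring
  · unfold rhoM
    rw [Matrix.diagonal_apply_eq]
    norm_num

variable {D : ℝ} {Γ : Subgroup (GLn (m + 3))}

theorem rh_act (hL : GoodLattice (m + 3) D Γ) {γ γ' : GLn (m + 3)} (hγ : γ ∈ Γ) (hγ' : γ' ∈ Γ)
    (h : (γ' : Mx (m + 3)) = rhoM (m + 3) * γ * rhoM (m + 3)) (y : E (m + 3)) :
    rh (act (γ : Mx (m + 3)) y) = act (γ' : Mx (m + 3)) (rh y) ∧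
    rh (act (γ' : Mx (m + 3)) y) = act (γ : Mx (m + 3)) (rh y) := by
  have l1 := hL.lor γ hγ
  have l2 := hL.lor γ' hγ'
  have e1 : (γ' : Mx (m + 3)) * rhoM (m + 3) = rhoM (m + 3) * γ := by
    rw [h, Matrix.mul_assoc, rhoM_mul, Matrix.mul_one]
  have e2 : rhoM (m + 3) * (γ' : Mx (m + 3)) = γ * rhoM (m + 3) := by
    rw [h, Matrix.mul_assoc, ← Matrix.mul_assoc, rhoM_mul, Matrix.one_mul]
  constructor
  · rw [← act_rhoM, ← act_rhoM, ← act_mul l1, ← act_mul isLor_rhoM, e1]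
  · rw [← act_rhoM, ← act_rhoM, ← act_mul l2, ← act_mul isLor_rhoM, e2]

theorem cj_act (hL : GoodLattice (m + 3) D Γ) {u : E (m + 3) → E (m + 3)}
    (hu : ∀ γ ∈ Γ, ∀ y, u (act (γ : Mx (m + 3)) y) = act (γ : Mx (m + 3)) (u y))
    {γ : GLn (m + 3)} (hγ : γ ∈ Γ) (y : E (m + 3)) :
    cj u (act (γ : Mx (m + 3)) y) = act (γ : Mx (m + 3)) (cj u y) := by
  obtain ⟨γ', hγ', h⟩ := hL.rho γ hγ
  unfold cj
  rw [(rh_act hL hγ hγ' h y).1, hu γ' hγ', (rh_act hL hγ hγ' h _).2]

end SymM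

open FarM SymM in
theorem specSym (hCal : SpecCal) (hHeq : SpecHeq) (hBoc : SpecBoc) (hPerp : SpecPerp)
    (hMaxi : SpecMaxi) : SpecSym := by
  intro m D R T Γ g u hL hper hu
  have hg : ∀ y, g (rh y) = Dm m * g y * Dm m := g_rh hper.rho
  have hcj : ContDiff ℝ ∞ (cj u) := contDiff_rh.comp (hu.smooth.comp contDiff_rh)
  have hFs : ContDiff ℝ ∞ fun z => Real.log (q (u z) (cj u z)) := contDiff_logq hu.smooth hcj
  obtain ⟨p, hp⟩ := hMaxi _ D Γ hL (fun z => Real.log (q (u z) (cj u z))) hFs.continuous (by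
    intro γ hγ y
    rw [hu.equiv γ hγ, cj_act hL hu.equiv hγ, q_act (hL.lor γ hγ)])
  have hmet := metAt hper.inv p
  have htu : ∀ y k, tv g u k y = 0 := by
    intro y k
    rw [← hHeq]
    exact hu.harm k y
  have htv : ∀ k, tv g (cj u) k p = 0 := by
    intro k
    rw [tv_cj hCal hg hu.smooth k p hmet, htu, mul_zero]
  have htn : tn g (cj u) p = 0 := by
    unfold tn hn
    simp [htv]
  have hq : q (u p) (cj u p) ≤ 1 := by
    by_contra hq1
    push Not at hq1
    have hboc := hBoc _ g u (cj u) p hmet hu.smooth.contDiffAt hcj.contDiffAt (htu p) hq1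
    have hp1 := (hPerp _ g u (cj u p) p hmet hu.smooth.contDiffAt hq1).2 (by omega) (hu.imm p)
    have hp2 := (hPerp _ g (cj u) (u p) p hmet hcj.contDiffAt (by rw [q_comm]; exact hq1)).1
    have h3 : 0 < 1 - 1 / q (u p) (cj u p) := by
      rw [sub_pos, div_lt_one (by linarith)]
      exact hq1
    have h4 : 0 < (1 - 1 / q (u p) (cj u p))
        * (perp g u (cj u p) p + perp g (cj u) (u p) p) := mul_pos h3 (by linarith)
    have hl := (hCal _ g p hmet).2.2.2.2.2.2 _ hFs.contDiffAt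
      (Filter.Eventually.of_forall hp)
    rw [htn] at hboc
    linarith
  have hlog : Real.log (q (u p) (cj u p)) ≤ 0 := Real.log_nonpos (q_pos _ _).le hq
  intro y
  have h1 : Real.log (q (u y) (cj u y)) ≤ 0 := (hp y).trans hlog
  have h2 : q (u y) (cj u y) = 1 := by
    refine le_antisymm ?_ (q_ge_one _ _)
    by_contra h
    push Not at h
    have := Real.log_pos h
    linarith
  have h3 : u y = cj u y := eq_of_q_eq_one h2
  rw [h3]
  unfold cj
  rw [rh_rh]

end Pool.Agent.Lib.MPdbccd7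
end

section
/-!
# WCLOSE: the `w`-coordinates of two close points
-/
namespace Pool.Agent.Lib.MPdbccd7

namespace WcloseM

variable {m : ℕ}

theorem one_ne_two : (1 : Fin (m + 3)) ≠ 2 := by
  intro h
  have := congrArg Fin.val h
  rw [Fin.val_one, Fin.val_two] at this
  omega

theorem sum_two (f : Fin (m + 3) → ℝ) (hf : ∀ i, i ≠ 1 → i ≠ 2 → f i = 0) :
    ∑ i, f i = f 1 + f 2 := by
  rw [← Finset.sum_pair one_ne_two]
  symm
  apply Finset.sum_subset (Finset.subset_univ _)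
  intro i _ hi
  simp only [Finset.mem_insert, Finset.mem_singleton, not_or] at hi
  exact hf i hi.1 hi.2

theorem final {w1 w2 b1 b2 s Q2 : ℝ} (hQ1 : 0 ≤ Q2) (hs : s = w1 * b1 + w2 * b2)
    (h : w1 ^ 2 + w2 ^ 2 ≤ Real.sqrt (Q2 * (w1 ^ 2 + w2 ^ 2 + s ^ 2))) :
    w1 ^ 2 + w2 ^ 2 ≤ Q2 * (1 + (b1 ^ 2 + b2 ^ 2)) := by
  have hW : 0 ≤ w1 ^ 2 + w2 ^ 2 := by positivity
  have hb : 0 ≤ b1 ^ 2 + b2 ^ 2 := by positivity
  rcases hW.eq_or_lt with h6 | h6
  · rw [← h6]
    positivity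
  · rw [Real.le_sqrt' h6] at h
    have h7 : s ^ 2 ≤ (w1 ^ 2 + w2 ^ 2) * (b1 ^ 2 + b2 ^ 2) := by
      rw [hs]
      have := sq_nonneg (w1 * b2 - w2 * b1)
      linarith [this]
    set W := w1 ^ 2 + w2 ^ 2
    have h8 : Q2 * s ^ 2 ≤ Q2 * (W * (b1 ^ 2 + b2 ^ 2)) := mul_le_mul_of_nonneg_left h7 hQ1
    have h9 : W * W ≤ W * (Q2 * (1 + (b1 ^ 2 + b2 ^ 2))) := by
      calc W * W = W ^ 2 := by ring
        _ ≤ Q2 * (W + s ^ 2) := h
        _ = Q2 * W + Q2 * s ^ 2 := by ring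
        _ ≤ Q2 * W + Q2 * (W * (b1 ^ 2 + b2 ^ 2)) := by linarith
        _ = _ := by ring
    exact le_of_mul_le_mul_left h9 h6

/-- the key estimate -/
theorem key (hLor : SpecLor) (a b : E (m + 3)) :
    (a 1 - q a b * b 1) ^ 2 + (a 2 - q a b * b 2) ^ 2 ≤ (q a b ^ 2 - 1) * (1 + wsq b) := by
  set Q := q a b with hQ
  set w1 := a 1 - Q * b 1 with hw1
  set w2 := a 2 - Q * b 2 with hw2
  set s := w1 * b 1 + w2 * b 2 with hs
  have h21 : (2 : Fin (m + 3)) ≠ 1 := one_ne_two.symm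
  set e : Fin (m + 3) → ℝ := fun i => if i = 1 then w1 else if i = 2 then w2 else 0 with he
  have e1 : e 1 = w1 := by simp [he]
  have e2 : e 2 = w2 := by simp [he, h21]
  have e0 : ∀ i, i ≠ 1 → i ≠ 2 → e i = 0 := by
    intro i h1 h2
    simp [he, h1, h2]
  have hee : ∑ k, e k * a k = w1 * a 1 + w2 * a 2 := by
    rw [sum_two _ fun i h1 h2 => by rw [e0 i h1 h2, zero_mul], e1, e2]
  have heb : ∑ k, e k * b k = s := by
    rw [sum_two _ fun i h1 h2 => by rw [e0 i h1 h2, zero_mul], e1, e2]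
  have hesq : ∑ k, e k ^ 2 = w1 ^ 2 + w2 ^ 2 := by
    rw [sum_two _ fun i h1 h2 => by rw [e0 i h1 h2]; ring, e1, e2]
  have hab : ∑ k, b k * a k = y0 a * y0 b - Q := by
    rw [hQ]; unfold q
    rw [Finset.sum_congr rfl fun k _ => mul_comm (b k) (a k)]
    ring
  have hbb : ∑ k, b k ^ 2 = y0 b ^ 2 - 1 := by rw [y0_sq]; ring
  have h := hLor.2.2 (m + 3) a b (fun k => e k + s * b k)
  have f1 : ∑ k, (e k + s * b k) * a k = w1 * a 1 + w2 * a 2 + s * (y0 a * y0 b - Q) := by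
    rw [← hee, ← hab, Finset.mul_sum, ← Finset.sum_add_distrib]
    apply Finset.sum_congr rfl
    intro k _; ring
  have f2 : ∑ k, b k * (e k + s * b k) = s * y0 b ^ 2 := by
    have : s * y0 b ^ 2 = s + s * (y0 b ^ 2 - 1) := by ring
    rw [this, ← hbb, Finset.mul_sum]
    conv_rhs => rw [← heb]
    rw [← Finset.sum_add_distrib]
    apply Finset.sum_congr rfl
    intro k _
    rw [heb]
    ring
  have f3 : ∑ k, (e k + s * b k) ^ 2 = w1 ^ 2 + w2 ^ 2 + 2 * s ^ 2 + s ^ 2 * (y0 b ^ 2 - 1) := by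
    have h0 : ∀ k, (e k + s * b k) ^ 2 = e k ^ 2 + 2 * s * (e k * b k) + s ^ 2 * b k ^ 2 :=
      fun k => by ring
    rw [Finset.sum_congr rfl fun k _ => h0 k, Finset.sum_add_distrib, Finset.sum_add_distrib,
      ← Finset.mul_sum, ← Finset.mul_sum, heb, hesq, hbb]
    ring
  have hb0 := y0_pos b
  unfold hn at h
  rw [f1, f2, f3, ← hQ] at h
  have g1 : w1 * a 1 + w2 * a 2 + s * (y0 a * y0 b - Q) - s * y0 b ^ 2 / y0 b * y0 a
      = w1 ^ 2 + w2 ^ 2 := by
    have : s * y0 b ^ 2 / y0 b = s * y0 b := by field_simp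
    rw [this, hs, hw1, hw2]
    ring
  have g2 : w1 ^ 2 + w2 ^ 2 + 2 * s ^ 2 + s ^ 2 * (y0 b ^ 2 - 1) - (s * y0 b ^ 2) ^ 2 / y0 b ^ 2
      = w1 ^ 2 + w2 ^ 2 + s ^ 2 := by
    have : (s * y0 b ^ 2) ^ 2 / y0 b ^ 2 = s ^ 2 * y0 b ^ 2 := by field_simp
    rw [this]; ring
  rw [g1, g2] at h
  have hQ1 : 0 ≤ Q ^ 2 - 1 := by nlinarith [q_ge_one a b]
  rw [← Real.sqrt_mul hQ1, abs_of_nonneg (by positivity)] at h
  exact final hQ1 hs h

end WcloseM

theorem specWclose (hLor : SpecLor) : SpecWclose := by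
  intro m a b hl hb
  have h := WcloseM.key hLor a b
  have hq1 := q_ge_one a b
  have hq2 : q a b ≤ 1016 / 1000 := by
    by_contra hc
    push Not at hc
    have h1 := Real.one_sub_inv_le_log_of_pos (q_pos a b)
    have h2 : (q a b)⁻¹ ≤ (1016 / 1000 : ℝ)⁻¹ := inv_anti₀ (by norm_num) hc.le
    norm_num at h2
    linarith
  have hq3 : q a b ^ 2 - 1 ≤ 33 / 1000 := by nlinarith
  have hq4 : (q a b - 1) ^ 2 ≤ 1 / 1000 := by nlinarith
  have h1 : (q a b ^ 2 - 1) * (1 + wsq b) ≤ 33 / 1000 * (2 * wsq b) := by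
    apply mul_le_mul hq3 (by linarith) (by linarith) (by norm_num)
  have h2 : (q a b - 1) ^ 2 * wsq b ≤ 1 / 1000 * wsq b :=
    mul_le_mul_of_nonneg_right hq4 (by linarith)
  set Q := q a b
  have h3 : (a 1 - b 1) ^ 2 + (a 2 - b 2) ^ 2
      ≤ 2 * ((a 1 - Q * b 1) ^ 2 + (a 2 - Q * b 2) ^ 2) + 2 * ((Q - 1) ^ 2 * wsq b) := by
    unfold wsq
    nlinarith [sq_nonneg ((a 1 - Q * b 1) - (Q - 1) * b 1),
      sq_nonneg ((a 2 - Q * b 2) - (Q - 1) * b 2)]
  linarith

end Pool.Agent.Lib.MPdbccd7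
end

section
/-!
# WIND: the contradiction (winding number)
-/
set_option autoImplicit false

open Filter Topology

namespace Pool.Agent.Lib.MPdbccd7

namespace WindM

variable {m : ℕ}

/-- The point `(s r, s, 0, ...)`. -/
noncomputable def pt (m : ℕ) (p : ℝ × ℝ) : E (m + 3) :=
  WithLp.toLp 2 fun i => if i = 0 then p.1 * p.2 else if i = 1 then p.1 else 0

theorem pt_apply (p : ℝ × ℝ) (i : Fin (m + 3)) :
    pt m p i = if i = 0 then p.1 * p.2 else if i = 1 then p.1 else 0 := rfl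

theorem pt0 (p : ℝ × ℝ) : pt m p 0 = p.1 * p.2 := by simp [pt_apply]

theorem pt1 (p : ℝ × ℝ) : pt m p 1 = p.1 := by
  rw [pt_apply, if_neg (by simp), if_pos rfl]

theorem val2 : ((2 : Fin (m + 3)) : ℕ) = 2 := by
  exact Nat.mod_eq_of_lt (by omega : 2 < m + 3)

theorem ne20 : (2 : Fin (m + 3)) ≠ 0 := by
  intro h
  have := congrArg Fin.val h
  rw [val2] at this
  simp at this

theorem ne21 : (2 : Fin (m + 3)) ≠ 1 := by
  intro h
  have := congrArg Fin.val h
  rw [val2] at this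
  simp at this

theorem ne10 : (1 : Fin (m + 3)) ≠ 0 := by
  intro h
  have := congrArg Fin.val h
  simp at this

theorem pt2 (p : ℝ × ℝ) : pt m p 2 = 0 := by
  rw [pt_apply, if_neg ne20, if_neg ne21]

theorem wsq_pt (p : ℝ × ℝ) : wsq (pt m p) = p.1 ^ 2 := by
  rw [wsq, pt1, pt2]
  ring

theorem y0_pt (p : ℝ × ℝ) : y0 (pt m p) ^ 2 = 1 + p.1 ^ 2 * (1 + p.2 ^ 2) := by
  rw [y0_sq]
  have : ∑ i, pt m p i ^ 2 = ∑ i : Fin (m + 3), ((if i = 0 then (p.1 * p.2) ^ 2 else 0) +
      if i = 1 then p.1 ^ 2 else 0) := by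
    refine Finset.sum_congr rfl fun i _ => ?_
    rw [pt_apply]
    by_cases h0 : i = 0
    · rw [if_pos h0, if_pos h0, if_neg (by rw [h0]; exact ne10.symm)]
      ring
    · rw [if_neg h0, if_neg h0]
      split_ifs <;> ring
  rw [this, Finset.sum_add_distrib, Finset.sum_ite_eq' , Finset.sum_ite_eq']
  simp only [Finset.mem_univ, if_true]
  ring

theorem continuous_pt : Continuous (pt m) := by
  unfold pt
  refine (PiLp.continuous_toLp 2 _).comp (continuous_pi fun i => ?_)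
  split_ifs <;> fun_prop

theorem rh_pt (p : ℝ × ℝ) (h : rh (pt m p) = pt m p) : p.1 = 0 := by
  have h1 := congrArg (fun z : E (m + 3) => z 1) h
  simp only [rh, pt1] at h1
  simp at h1
  linarith

theorem rh_eq {y : E (m + 3)} (h1 : y 1 = 0) (h2 : y 2 = 0) : rh y = y := by
  ext i
  simp only [rh]
  split_ifs with h
  · rcases h with rfl | rfl
    · rw [h1, neg_zero]
    · rw [h2, neg_zero]
  · rfl

end WindM

open WindM in
theorem specWind (hW : SpecWtop) (hC : SpecWclose) (hT : SpecTriv) (hB : SpecBarh) : SpecWind := by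
  intro m C C1 C2 δ ε κ Ya Yb r1 r2 R D T Γ g u hc hF hN hS
  obtain ⟨-, hT⟩ := hT m C T ε κ r1 r2 hc.tw
  obtain ⟨-, hB⟩ := hB m T hc.tw.tsm hc.tw.lsm ε hc.tw.hε.1 hc.tw.hε.2
  have hYa := hc.par.hYa
  have hab := hc.par.hab
  have hS1 : 1 ≤ Real.exp r2 := Real.one_le_exp (hc.tw.hr.1.trans hc.tw.hr.2.le)
  have hYb : Yb < Real.exp r2 := by
    have h1 : Yb = Real.exp (Real.log Yb) := (Real.exp_log (by linarith)).symm
    rw [h1]
    exact Real.exp_lt_exp.2 (hc.par.hr1.trans hc.tw.hr.2)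
  have hR := hc.par.hr2
  have hR0 : 0 < R := by linarith [Real.exp_pos r2]
  -- bounds of `y0`
  have hle : ∀ p : ℝ × ℝ, p ∈ Set.Icc (1 : ℝ) (Real.exp r2) ×ˢ Set.Icc (-1 : ℝ) 1 →
      y0 (pt m p) ≤ R ∧ p.1 ≤ y0 (pt m p) := by
    rintro ⟨s, r⟩ ⟨⟨hs1, hs2⟩, ⟨hr1, hr2⟩⟩
    have h1 := y0_pt (m := m) (s, r)
    have h2 := y0_pos (pt m (s, r))
    simp only at h1 hs1 hs2 hr1 hr2 ⊢
    have h3 : r ^ 2 ≤ 1 := by nlinarith
    constructor
    · apply le_of_sq_le_sq _ (by linarith)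
      rw [h1]
      have : R ^ 2 ≥ (2 * Real.exp r2) ^ 2 := by
        apply pow_le_pow_left₀ (by positivity) hR.le
      have h4 : s ^ 2 ≤ Real.exp r2 ^ 2 := pow_le_pow_left₀ (by linarith) hs2 2
      have h5 : s ^ 2 * (1 + r ^ 2) ≤ s ^ 2 * 2 := by
        apply mul_le_mul_of_nonneg_left (by linarith) (sq_nonneg s)
      nlinarith
    · apply le_of_sq_le_sq _ h2.le
      rw [h1]
      have h5 : 0 ≤ s ^ 2 * r ^ 2 := by positivity
      nlinarith
  -- far out
  have hfar : ∀ y : E (m + 3), Yb ≤ y0 y → y0 y ≤ R → vA T y = y →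
      Real.log (q (u y) y) ≤ 1 / 64 := by
    intro y h1 h2 h3
    have h4 := hF y (hab.trans h1) h2
    rw [h3] at h4
    refine h4.trans ?_
    have hy := y0_pos y
    have hA : 0 ≤ 3 * Real.log Ya + 4 := by
      have := Real.log_nonneg hYa
      linarith
    have h5 : 0 ≤ (y0 y)⁻¹ - 1 / R := by
      rw [one_div, sub_nonneg]
      exact inv_anti₀ hy h2
    have h6 : ((y0 y)⁻¹ - 1 / R) ^ 2 ≤ (y0 y)⁻¹ ^ 2 := by
      apply pow_le_pow_left₀ h5
      have : 0 ≤ 1 / R := (one_div_pos.2 hR0).le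
      linarith
    have h7 : (Ya / y0 y) ^ (m + 2) ≤ (Ya / Yb) ^ 2 := by
      have hYb0 : 0 < Yb := by linarith
      have h8 : Ya / y0 y ≤ Ya / Yb := div_le_div_of_nonneg_left (by linarith) hYb0 h1
      have h9 : Ya / Yb ≤ 1 := by
        rw [div_le_one hYb0]
        linarith
      calc (Ya / y0 y) ^ (m + 2) ≤ (Ya / Yb) ^ (m + 2) :=
            pow_le_pow_left₀ (by positivity) h8 _
        _ ≤ (Ya / Yb) ^ 2 := pow_le_pow_of_le_one (by positivity) h9 (by omega)
    unfold Sb Bc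
    have h10 : (3 * Real.log Ya + 4) * Ya ^ (m + 2) * ((y0 y)⁻¹ - 1 / R) ^ 2 * (y0 y)⁻¹ ^ m ≤
        1 / 400 := by
      calc (3 * Real.log Ya + 4) * Ya ^ (m + 2) * ((y0 y)⁻¹ - 1 / R) ^ 2 * (y0 y)⁻¹ ^ m
          ≤ (3 * Real.log Ya + 4) * Ya ^ (m + 2) * (y0 y)⁻¹ ^ 2 * (y0 y)⁻¹ ^ m := by
            apply mul_le_mul_of_nonneg_right _ (by positivity)
            apply mul_le_mul_of_nonneg_left h6 (by positivity)
        _ = (3 * Real.log Ya + 4) * (Ya / y0 y) ^ (m + 2) := by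
            rw [div_eq_mul_inv, mul_pow]
            ring
        _ ≤ (3 * Real.log Ya + 4) * (Ya / Yb) ^ 2 := mul_le_mul_of_nonneg_left h7 hA
        _ ≤ 1 / 400 := hc.par.hSb
    linarith
  -- inside
  have hnear : ∀ y : E (m + 3), y0 y ≤ Yb → Hb ε y ≤ 9 * ε →
      Real.log (q (u y) (Phi T 1 y)) ≤ 1 / 64 := by
    intro y h1 h2
    refine (hN y h1).trans ?_
    have h3 : 0 ≤ (2 * Real.log Yb + 2) * 2 ^ (m + 3) := by
      have : 0 ≤ Real.log Yb := Real.log_nonneg (by linarith)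
      positivity
    have h4 := mul_le_mul_of_nonneg_left h2 h3
    have h5 := hc.par.hCb
    linarith
  -- the sides `r = ± 1`
  have hside : ∀ p : ℝ × ℝ, p ∈ Set.Icc (1 : ℝ) (Real.exp r2) ×ˢ Set.Icc (-1 : ℝ) 1 →
      p.2 ^ 2 = 1 → Real.log (q (u (pt m p)) (pt m p)) ≤ 1 / 64 := by
    intro p hp hp2
    have h1 : 1 / 2 ≤ |tk (pt m p)| := by
      unfold tk
      rw [abs_div, abs_of_pos (y0_pos _), div_le_div_iff₀ two_pos (y0_pos _), pt0]
      apply le_of_sq_le_sq _ (by positivity)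
      rw [mul_pow, mul_pow, y0_pt, sq_abs, mul_pow, hp2]
      have h2 : 1 ≤ p.1 := hp.1.1
      nlinarith
    obtain ⟨h2, -, -, -⟩ := hT (pt m p)
    obtain ⟨h3, h4⟩ := h2 (by linarith [hc.tw.hε.2])
    rcases le_total (y0 (pt m p)) Yb with h5 | h5
    · have := hnear (pt m p) h5 ((hB (pt m p)).2.2.2.2 h1)
      rwa [h3] at this
    · exact hfar _ h5 (hle p hp).1 h4
  -- the side `s = S1`
  have hend : ∀ p : ℝ × ℝ, p ∈ Set.Icc (1 : ℝ) (Real.exp r2) ×ˢ Set.Icc (-1 : ℝ) 1 →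
      p.1 = Real.exp r2 → Real.log (q (u (pt m p)) (pt m p)) ≤ 1 / 64 := by
    intro p hp hp1
    obtain ⟨h1, h2⟩ := hle p hp
    rw [hp1] at h2
    have h3 : r2 ≤ rk (pt m p) := by
      unfold rk
      rw [Real.le_log_iff_exp_le (y0_pos _)]
      exact h2
    exact hfar _ (hYb.le.trans h2) h1 ((hT (pt m p)).2.1 h3).1
  -- positivity of the real part
  have hpos : ∀ p : ℝ × ℝ, p ∈ Set.Icc (1 : ℝ) (Real.exp r2) ×ˢ Set.Icc (-1 : ℝ) 1 →
      Real.log (q (u (pt m p)) (pt m p)) ≤ 1 / 64 → 0 < u (pt m p) 1 := by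
    intro p hp h
    have h1 : 1 ≤ p.1 := hp.1.1
    have h2 := hC m (u (pt m p)) (pt m p) h (by rw [wsq_pt]; nlinarith)
    rw [wsq_pt, pt1] at h2
    nlinarith [sq_nonneg (u (pt m p) 2 - pt m p 2)]
  have hcont : Continuous fun p => u (pt m p) := hc.harm.smooth.continuous.comp continuous_pt
  have hψ : Continuous fun r : ℝ => T.tau (tk (pt m (1, r))) := by
    apply hc.tw.tsm.continuous.comp
    have h1 : Continuous fun r : ℝ => pt m (1, r) := continuous_pt.comp (by fun_prop)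
    have h2 : Continuous fun r : ℝ => pt m (1, r) 0 := by
      simp only [pt0]
      fun_prop
    exact h2.div (continuous_y0.comp h1) fun r => y0_ne _
  have ht : ∀ r : ℝ, r ^ 2 = 1 → 1 / 2 ≤ |tk (pt m (1, r))| ∧
      tk (pt m (1, r)) * r = |tk (pt m (1, r))| := by
    intro r hr
    have h0 := y0_pos (pt m (1, r))
    have h1 : tk (pt m (1, r)) = r / y0 (pt m (1, r)) := by
      unfold tk
      rw [pt0, one_mul]
    have h3 : |r| = 1 := by
      rw [← sq_eq_sq₀ (abs_nonneg r) zero_le_one, sq_abs, hr, one_pow]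
    have h2 : |tk (pt m (1, r))| = 1 / y0 (pt m (1, r)) := by
      rw [h1, abs_div, abs_of_pos h0, h3]
    constructor
    · rw [h2, div_le_div_iff₀ two_pos h0, one_mul, one_mul]
      apply le_of_sq_le_sq _ (by norm_num)
      rw [y0_pt, hr]
      norm_num
    · rw [h2, h1, div_mul_eq_mul_div, ← sq, hr]
  have hε8 := hc.tw.hε.2
  refine hW (Real.exp r2) (fun p => ⟨u (pt m p) 1, u (pt m p) 2⟩)
    (fun r => T.tau (tk (pt m (1, r)))) hS1 ?_ ?_ ?_ ?_ hψ ?_ ?_ ?_
  · apply Continuous.continuousOn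
    have h1 : Continuous fun p : ℝ × ℝ => u (pt m p) 1 :=
      (differentiable_coord 1).continuous.comp hcont
    have h2 : Continuous fun p : ℝ × ℝ => u (pt m p) 2 :=
      (differentiable_coord 2).continuous.comp hcont
    have h3 := (Complex.continuous_ofReal.comp h1).add
      ((Complex.continuous_ofReal.comp h2).mul (continuous_const (y := Complex.I)))
    refine h3.congr fun p => ?_
    exact (Complex.mk_eq_add_mul_I _ _).symm
  · intro p hp h0
    have h1 : u (pt m p) 1 = 0 := congrArg Complex.re h0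
    have h2 : u (pt m p) 2 = 0 := congrArg Complex.im h0
    have h3 := hS (pt m p)
    rw [rh_eq h1 h2] at h3
    have h4 := rh_pt p (hc.harm.inj h3)
    have h5 : 1 ≤ p.1 := hp.1.1
    linarith
  · intro s hs
    have hm1 : ((s, 1) : ℝ × ℝ) ∈ Set.Icc (1 : ℝ) (Real.exp r2) ×ˢ Set.Icc (-1 : ℝ) 1 :=
      ⟨hs, by norm_num, by norm_num⟩
    have hm2 : ((s, -1) : ℝ × ℝ) ∈ Set.Icc (1 : ℝ) (Real.exp r2) ×ˢ Set.Icc (-1 : ℝ) 1 :=
      ⟨hs, by norm_num, by norm_num⟩
    exact ⟨hpos _ hm1 (hside _ hm1 (by norm_num)), hpos _ hm2 (hside _ hm2 (by norm_num))⟩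
  · intro r hr
    have hm1 : ((Real.exp r2, r) : ℝ × ℝ) ∈
        Set.Icc (1 : ℝ) (Real.exp r2) ×ˢ Set.Icc (-1 : ℝ) 1 := ⟨⟨hS1, le_rfl⟩, hr⟩
    exact hpos _ hm1 (hend _ hm1 rfl)
  · obtain ⟨h1, h2⟩ := ht (-1) (by norm_num)
    exact hc.tw.tneg _ (by linarith)
  · obtain ⟨h1, h2⟩ := ht 1 (by norm_num)
    exact hc.tw.tpos _ (by linarith)
  · intro r hr
    have hm1 : ((1, r) : ℝ × ℝ) ∈ Set.Icc (1 : ℝ) (Real.exp r2) ×ˢ Set.Icc (-1 : ℝ) 1 :=
      ⟨⟨le_rfl, hS1⟩, hr⟩
    have h2 : y0 (pt m (1, r)) ≤ 2 := by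
      apply le_of_sq_le_sq _ (by norm_num)
      rw [y0_pt]
      have : r ^ 2 ≤ 1 := by nlinarith [hr.1, hr.2]
      simp only
      linarith
    have h3 := hnear (pt m (1, r)) (by linarith) ((hB _).2.2.2.1 h2)
    have e1 : Phi T 1 (pt m (1, r)) 1 = Real.cos (T.tau (tk (pt m (1, r)))) := by
      simp only [Phi, rotE, one_mul, pt1, pt2]
      simp
    have e2 : Phi T 1 (pt m (1, r)) 2 = Real.sin (T.tau (tk (pt m (1, r)))) := by
      simp only [Phi, rotE, one_mul, pt1, pt2, if_neg (ne21 (m := m))]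
      simp
    have h4 : wsq (Phi T 1 (pt m (1, r))) = 1 := by
      rw [wsq, e1, e2]
      exact Real.cos_sq_add_sin_sq _
    have h5 := hC m _ _ h3 h4.ge
    rw [h4, e1, e2] at h5
    rw [← sq_lt_one_iff₀ (norm_nonneg _), Complex.sq_norm, Complex.normSq_apply]
    have e3 : Complex.exp (((T.tau (tk (pt m (1, r))) : ℝ) : ℂ) * Complex.I) =
        ⟨Real.cos (T.tau (tk (pt m (1, r)))), Real.sin (T.tau (tk (pt m (1, r))))⟩ := by
      rw [Complex.exp_mul_I, ← Complex.ofReal_cos, ← Complex.ofReal_sin, Complex.mk_eq_add_mul_I]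
    rw [e3]
    simp only [Complex.sub_re, Complex.sub_im]
    nlinarith

end Pool.Agent.Lib.MPdbccd7
end

section
/-!
# WTOP: a winding number obstruction on a rectangle
-/
open Set

namespace Pool.Agent.Lib.MPdbccd7

namespace WtopM

/-- A continuous logarithm on a compact convex set. -/
theorem exists_log {V : Type*} [NormedAddCommGroup V] [NormedSpace ℝ V] {K : Set V}
    (hK : IsCompact K) (hc : Convex ℝ K) (f : V → ℂ) (hf : ContinuousOn f K)
    (h0 : ∀ x ∈ K, f x ≠ 0) :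
    ∃ Φ : V → ℂ, ContinuousOn Φ K ∧ ∀ x ∈ K, Complex.exp (Φ x) = f x := by
  rcases K.eq_empty_or_nonempty with rfl | ⟨c, hcK⟩
  · exact ⟨fun _ => 0, by simp, by simp⟩
  obtain ⟨x₀, hx₀, hmin⟩ := hK.exists_isMinOn ⟨c, hcK⟩ hf.norm
  have hm : 0 < ‖f x₀‖ := norm_pos_iff.mpr (h0 _ hx₀)
  have hle : ∀ x ∈ K, ‖f x₀‖ ≤ ‖f x‖ := fun x hx => hmin hx
  have huc := hK.uniformContinuousOn_of_continuous hf
  rw [Metric.uniformContinuousOn_iff] at huc
  obtain ⟨δ, hδ, hd⟩ := huc _ hm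
  obtain ⟨R, hR⟩ := hK.isBounded.exists_norm_le
  obtain ⟨N, hN⟩ := exists_nat_gt ((R + R) / δ)
  have hR0 : 0 ≤ R := (norm_nonneg _).trans (hR c hcK)
  have hNpos : (0 : ℝ) < N := lt_of_le_of_lt (by positivity) hN
  have hNlt : (R + R) < δ * N := by
    rw [div_lt_iff₀ hδ] at hN
    linarith
  set p : V → ℕ → V := fun x k => c + ((k : ℝ) / N) • (x - c) with hp
  have hpK : ∀ x ∈ K, ∀ k ≤ N, p x k ∈ K := by
    intro x hx k hk
    have : p x k = (1 - (k : ℝ) / N) • c + ((k : ℝ) / N) • x := by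
      simp only [hp]; module
    rw [this]
    have h1 : (k : ℝ) / N ≤ 1 := by
      rw [div_le_one hNpos]; exact_mod_cast hk
    exact hc hcK hx (by linarith) (by positivity) (by ring)
  have hpd : ∀ x ∈ K, ∀ k, dist (p x (k + 1)) (p x k) < δ := by
    intro x hx k
    rw [dist_eq_norm]
    have : p x (k + 1) - p x k = (1 / (N : ℝ)) • (x - c) := by
      simp only [hp]; push_cast
      have : ((k : ℝ) + 1) / N = (k : ℝ) / N + 1 / N := by ring
      rw [this]; module
    rw [this, norm_smul, Real.norm_of_nonneg (by positivity)]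
    have : ‖x - c‖ ≤ R + R := (norm_sub_le _ _).trans (add_le_add (hR x hx) (hR c hcK))
    rw [one_div, inv_mul_lt_iff₀ hNpos]
    linarith
  have hslit : ∀ x ∈ K, ∀ k < N, f (p x (k + 1)) / f (p x k) ∈ Complex.slitPlane := by
    intro x hx k hk
    have ha := hpK x hx k hk.le
    have hb := hpK x hx (k + 1) hk
    have h1 := hd _ hb _ ha (hpd x hx k)
    left
    have hne := h0 _ ha
    have h2 : ‖f (p x (k + 1)) / f (p x k) - 1‖ < 1 := by
      rw [div_sub_one hne, norm_div, div_lt_one (norm_pos_iff.mpr hne), ← dist_eq_norm]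
      exact h1.trans_le (hle _ ha)
    have h3 := (Complex.abs_re_le_norm (f (p x (k + 1)) / f (p x k) - 1)).trans_lt h2
    rw [abs_lt] at h3
    simp only [Complex.sub_re, Complex.one_re] at h3
    linarith [h3.1]
  refine ⟨fun x => Complex.log (f c) +
    ∑ k ∈ Finset.range N, Complex.log (f (p x (k + 1)) / f (p x k)), ?_, ?_⟩
  · refine continuousOn_const.add (continuousOn_finsetSum _ fun k hk => ?_)
    have hk := Finset.mem_range.mp hk
    have hcont : ∀ j ≤ N, ContinuousOn (fun x => f (p x j)) K := by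
      intro j hj
      refine hf.comp (t := K) (f := fun x => p x j) ?_ fun x hx => hpK x hx j hj
      simp only [hp]
      fun_prop
    exact ContinuousOn.clog ((hcont _ hk).div (hcont _ hk.le) fun x hx => h0 _ (hpK x hx k hk.le))
      fun x hx => hslit x hx k hk
  · intro x hx
    have hfc := h0 c hcK
    simp only
    rw [Complex.exp_add, Complex.exp_log hfc, Complex.exp_sum]
    have : ∀ k ∈ Finset.range N, Complex.exp (Complex.log (f (p x (k + 1)) / f (p x k)))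
        = f (p x (k + 1)) / f (p x k) := by
      intro k hk
      have hk := Finset.mem_range.mp hk
      exact Complex.exp_log (div_ne_zero (h0 _ (hpK x hx _ hk)) (h0 _ (hpK x hx _ hk.le)))
    rw [Finset.prod_congr rfl this]
    have key : ∀ M ≤ N, ∏ k ∈ Finset.range M, f (p x (k + 1)) / f (p x k)
        = f (p x M) / f (p x 0) := by
      intro M hM
      induction M with
      | zero => simp [div_self (h0 _ (hpK x hx 0 (Nat.zero_le _)))]
      | succ M ih =>
        rw [Finset.prod_range_succ, ih (by omega)]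
        have := h0 _ (hpK x hx M (by omega))
        field_simp
    rw [key N le_rfl]
    have h1 : p x N = x := by
      simp only [hp]; rw [div_self hNpos.ne', one_smul]; abel
    have h2 : p x 0 = c := by simp [hp]
    rw [h1, h2]
    field_simp

theorem cos_seg {a b : ℝ} (hab : a ≤ b) (g : ℝ → ℝ) (hg : ContinuousOn g (Icc a b))
    (hc : ∀ x ∈ Icc a b, 0 < Real.cos (g x)) (k : ℤ) :
    |g a - k * (2 * Real.pi)| < Real.pi / 2 ↔ |g b - k * (2 * Real.pi)| < Real.pi / 2 := by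
  have hcont : ContinuousOn (fun x => |g x - k * (2 * Real.pi)|) (Icc a b) :=
    (hg.sub continuousOn_const).abs
  have hne : ∀ x ∈ Icc a b, |g x - k * (2 * Real.pi)| ≠ Real.pi / 2 := by
    intro x hx h
    have h1 := hc x hx
    rw [← Real.cos_sub_int_mul_two_pi _ k, ← Real.cos_abs, h, Real.cos_pi_div_two] at h1
    exact lt_irrefl _ h1
  constructor
  · intro h
    by_contra h'
    push Not at h'
    obtain ⟨x, hx, hx'⟩ := intermediate_value_Icc hab hcont ⟨h.le, h'⟩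
    exact hne x hx hx'
  · intro h
    by_contra h'
    push Not at h'
    obtain ⟨x, hx, hx'⟩ := intermediate_value_Icc' hab hcont ⟨h.le, h'⟩
    exact hne x hx hx'

theorem exists_int {θ : ℝ} (h : 0 < Real.cos θ) :
    ∃ k : ℤ, |θ - k * (2 * Real.pi)| < Real.pi / 2 := by
  have hpi := Real.pi_pos
  refine ⟨round (θ / (2 * Real.pi)), ?_⟩
  have h1 := abs_sub_round (θ / (2 * Real.pi))
  set k := round (θ / (2 * Real.pi))
  have h2 : |θ - k * (2 * Real.pi)| ≤ Real.pi := by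
    have : θ - k * (2 * Real.pi) = (θ / (2 * Real.pi) - k) * (2 * Real.pi) := by field_simp
    rw [this, abs_mul, abs_of_pos (by positivity : 0 < 2 * Real.pi)]
    nlinarith
  by_contra h3
  push Not at h3
  rw [← Real.cos_sub_int_mul_two_pi _ k, ← Real.cos_abs] at h
  exact absurd h (not_lt.mpr (Real.cos_nonpos_of_pi_div_two_le_of_le h3 (by linarith)))

theorem cos_pos_of_re {z Φ : ℂ} (h : Complex.exp Φ = z) (hz : 0 < z.re) :
    0 < Real.cos Φ.im := by
  rw [← h, Complex.exp_re] at hz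
  exact pos_of_mul_pos_right hz (Real.exp_pos _).le

/-- WTOP. -/
theorem wtop (S : ℝ) (hS : 1 ≤ S) (F : ℝ × ℝ → ℂ)
    (hF : ContinuousOn F (Icc 1 S ×ˢ Icc (-1) 1))
    (h0 : ∀ p ∈ Icc (1 : ℝ) S ×ˢ Icc (-1 : ℝ) 1, F p ≠ 0)
    (hm : ∀ s ∈ Icc 1 S, 0 < (F (s, -1)).re) (hp : ∀ s ∈ Icc 1 S, 0 < (F (s, 1)).re)
    (hr : ∀ r ∈ Icc (-1 : ℝ) 1, 0 < (F (S, r)).re)
    (ψ : ℝ → ℝ) (hψ : ContinuousOn ψ (Icc (-1) 1)) (h2 : ψ (-1) = 2 * Real.pi) (h3 : ψ 1 = 0)
    (h1 : ∀ r ∈ Icc (-1 : ℝ) 1, ‖F (1, r) - Complex.exp (ψ r * Complex.I)‖ < 1) : False := by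
  obtain ⟨Φ, hΦ, he⟩ := exists_log (isCompact_Icc.prod isCompact_Icc)
    ((convex_Icc (𝕜 := ℝ) 1 S).prod (convex_Icc (𝕜 := ℝ) (-1) 1)) F hF h0
  have hpi := Real.pi_pos
  have mem : ∀ s ∈ Icc 1 S, ∀ r ∈ Icc (-1 : ℝ) 1, ((s, r) : ℝ × ℝ) ∈ Icc 1 S ×ˢ Icc (-1 : ℝ) 1 :=
    fun s hs r hr => ⟨hs, hr⟩
  have h1S : (1 : ℝ) ∈ Icc 1 S := ⟨le_rfl, hS⟩
  have hSS : S ∈ Icc 1 S := ⟨hS, le_rfl⟩
  have hm1 : (-1 : ℝ) ∈ Icc (-1 : ℝ) 1 := by norm_num
  have hp1 : (1 : ℝ) ∈ Icc (-1 : ℝ) 1 := by norm_num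
  -- horizontal and vertical restrictions
  have hor : ∀ r ∈ Icc (-1 : ℝ) 1, ContinuousOn (fun s => (Φ (s, r)).im) (Icc 1 S) := by
    intro r hr
    refine Complex.continuous_im.comp_continuousOn (hΦ.comp (f := fun s : ℝ => (s, r)) ?_ ?_)
    · fun_prop
    · intro s hs; exact ⟨hs, hr⟩
  have ver : ∀ s ∈ Icc 1 S, ContinuousOn (fun r => (Φ (s, r)).im) (Icc (-1) 1) := by
    intro s hs
    refine Complex.continuous_im.comp_continuousOn (hΦ.comp (f := fun r : ℝ => (s, r)) ?_ ?_)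
    · fun_prop
    · intro r hr; exact ⟨hs, hr⟩
  obtain ⟨k, hk⟩ := exists_int (cos_pos_of_re (he _ (mem 1 h1S (-1) hm1)) (hm 1 h1S))
  have e1 := (cos_seg hS _ (hor (-1) hm1)
    (fun s hs => cos_pos_of_re (he _ (mem s hs _ hm1)) (hm s hs)) k).mp hk
  have e2 := (cos_seg (by norm_num) _ (ver S hSS)
    (fun r hr' => cos_pos_of_re (he _ (mem S hSS r hr')) (hr r hr')) k).mp e1
  have e3 := (cos_seg hS _ (hor 1 hp1)
    (fun s hs => cos_pos_of_re (he _ (mem s hs _ hp1)) (hp s hs)) k).mpr e2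
  have e4 := (cos_seg (by norm_num) (fun r => (Φ (1, r)).im - ψ r) ((ver 1 h1S).sub hψ)
    (fun r hr' => ?_) (k - 1)).mp ?_
  · simp only [h3, sub_zero] at e4
    push_cast at e4
    rw [abs_lt] at e3 e4
    nlinarith [e3.1, e3.2, e4.1, e4.2]
  · -- cos positive
    have hz := h1 r hr'
    set w := Φ (1, r) - ψ r * Complex.I with hw
    have hwe : Complex.exp w = F (1, r) * Complex.exp (-(ψ r * Complex.I)) := by
      rw [hw, sub_eq_add_neg, Complex.exp_add, he _ (mem 1 h1S r hr')]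
    have hre : 0 < (Complex.exp w).re := by
      have h5 : ‖Complex.exp w - 1‖ < 1 := by
        have : Complex.exp w - 1
            = (F (1, r) - Complex.exp (ψ r * Complex.I)) * Complex.exp (-(ψ r * Complex.I)) := by
          rw [hwe, sub_mul, ← Complex.exp_add, add_neg_cancel, Complex.exp_zero]
        rw [this, norm_mul]
        have h6 : ‖Complex.exp (-(ψ r * Complex.I))‖ = 1 := by
          have : -((ψ r : ℂ) * Complex.I) = ((-ψ r : ℝ) : ℂ) * Complex.I := by push_cast; ring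
          rw [this, Complex.norm_exp_ofReal_mul_I]
        rw [h6, mul_one]
        exact hz
      have h7 := (Complex.abs_re_le_norm (Complex.exp w - 1)).trans_lt h5
      rw [abs_lt] at h7
      simp only [Complex.sub_re, Complex.one_re] at h7
      linarith [h7.1]
    have := cos_pos_of_re rfl hre
    have h8 : w.im = (Φ (1, r)).im - ψ r := by simp [hw]
    rw [h8] at this
    exact this
  · simp only [h2]
    push_cast
    have : (Φ (1, -1)).im - 2 * Real.pi - ((k : ℝ) - 1) * (2 * Real.pi)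
        = (Φ (1, -1)).im - k * (2 * Real.pi) := by ring
    rw [this]
    exact hk

end WtopM

theorem specWtop : SpecWtop := fun S1 F ψ h1 hF h0 hpm hr hψ h2 h3 hn =>
  WtopM.wtop S1 h1 F hF h0 (fun s hs => (hpm s hs).2) (fun s hs => (hpm s hs).1) hr ψ
    hψ.continuousOn h2 h3 hn

end Pool.Agent.Lib.MPdbccd7
end
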